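import Mathlib
import Pool.Agent.Lib.MP_8fffab_lc_Sym.Defs

/-!
# Symmetric circuits for Set Cover (definitions, second part)

Circuits over the variables `x_A`, their symmetries and covers are defined in
`Pool.Agent.Lib.MP_8fffab_lc_Sym.Defs`.
-/

namespace Pool.Agent.SymSC

section
variable {V : Type} [Fintype V] {d : ℕ} {Γ : Type} [Fintype Γ]

/-- The fan-in of a gate: the number of its wires with multiplicities. -/
def Circuit.fanin (C : Circuit V d Γ) (g : Γ) : ℕ :=
  ∑ A : DSet V d, C.inVar g A + ∑ h : Γ, C.inGate g h

/-- The gates count only up to `θ`: the output of a gate is the same for all numbers `t` of true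
wires such that at least `θ` wires are true and at least `θ` wires are false.  For `θ = 1` this
holds for AND, OR and NOT with any fan-in; in general it holds for the thresholds `t ≥ a` with
`a ≤ θ` or `a > fan-in - θ`, and for every symmetric function when the fan-in is less than
`2 * θ`. -/
def Circuit.CountsUpTo (C : Circuit V d Γ) (θ : ℕ) : Prop :=
  ∀ g t t', θ ≤ t → t + θ ≤ C.fanin g → θ ≤ t' → t' + θ ≤ C.fanin g → C.op g t = C.op g t'

/-- Every gate is an AND gate or an OR gate (with any fan-in; with fan-in `0` these are the
constants `true` and `false`). -/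
def Circuit.AndOr (C : Circuit V d Γ) : Prop :=
  ∀ g, (∀ t ≤ C.fanin g, C.op g t = decide (t = C.fanin g)) ∨
    (∀ t ≤ C.fanin g, C.op g t = decide (t ≠ 0))

/-- The number of wires; parallel wires are counted only once. -/
noncomputable def Circuit.wires (C : Circuit V d Γ) : ℕ :=
  Nat.card {p : Γ × DSet V d // C.inVar p.1 p.2 ≠ 0} +
    Nat.card {p : Γ × Γ // C.inGate p.1 p.2 ≠ 0}

end

/-- There is a probability distribution (weights `w i`) on a finite family of circuits `C i` over
the `d`-element subsets of `{1, ..., n}`, all with the property `P`, that accepts every family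
`F` with a cover of at most `k` sets with probability at least `(1 + γ) / 2` and every other
family `F` with probability at most `(1 - γ) / 2`.  So `γ = 1` means that all circuits of positive
weight are correct, and an error of at most `1 / 3` means `γ = 1 / 3`. -/
def HasCircuit (n d k : ℕ) (γ : ℝ)
    (P : ∀ (Γ : Type) [Fintype Γ], Circuit (Fin n) d Γ → Prop) : Prop :=
  ∃ (ι : Type) (_ : Fintype ι) (w : ι → ℝ) (Γ : ι → Type) (_ : ∀ i, Fintype (Γ i))
    (C : ∀ i, Circuit (Fin n) d (Γ i)),
    (∀ i, 0 ≤ w i) ∧ ∑ i, w i = 1 ∧ (∀ i, P (Γ i) (C i)) ∧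
    (∀ F : Set (DSet (Fin n) d), HasCover F k →
      (1 + γ) / 2 ≤ ∑ i, if (C i).output F = true then w i else 0) ∧
    (∀ F : Set (DSet (Fin n) d), ¬ HasCover F k →
      ∑ i, (if (C i).output F = true then w i else 0) ≤ (1 - γ) / 2)

/-- The gates count only up to `θ` and `wires * (n! / number of symmetries) ≤ s` (with at least
`1` for the number of wires). -/
def WireBound (n d θ s : ℕ) (Γ : Type) [Fintype Γ] (C : Circuit (Fin n) d Γ) : Prop :=
  C.CountsUpTo θ ∧ max 1 C.wires * n.factorial ≤ s * C.numSym

end Pool.Agent.SymSC
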