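import Mathlib
import Pool.Agent.Lib.MP_8fffab_lc_Sym.Group

/-!
# Subgroups whose index is almost the middle binomial coefficient
-/

namespace Pool.Agent.SymSC

set_option linter.unusedSectionVars false

open Equiv Equiv.Perm Pool.Agent.SymCirc

/-- an injection on a finite set extends to a permutation -/
lemma exists_perm_extend {β : Type} [Fintype β] [DecidableEq β] (s : Finset β) (f : β → β)
    (hf : Set.InjOn f s) : ∃ π : Perm β, ∀ x ∈ s, π x = f x := by
  obtain ⟨g, hg⟩ := Finset.exists_equiv_extend_of_card_eq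
    (t := (Finset.univ : Finset β)) (α := β) (by simp) (s := s) (f := f) (by simp) hf
  refine ⟨g.trans (Equiv.subtypeUnivEquiv (by simp)), ?_⟩
  intro x hx
  exact hg x hx

variable {α : Type} [DecidableEq α] [Fintype α] {G : Subgroup (Perm α)}

lemma map_mul_perm (p q : Perm α) (T : Finset α) : T.map (p * q).toEmbedding =
    (T.map q.toEmbedding).map p.toEmbedding := by
  rw [Finset.map_map]
  rfl

/-- two disjoint sets can be moved onto two disjoint sets of the same sizes -/
lemma exists_perm_two {W W' S S' : Finset α} (hW : Disjoint W W') (hS : Disjoint S S')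
    (h1 : S.card = W.card) (h2 : S'.card = W'.card) :
    ∃ σ : Perm α, W.map σ.toEmbedding = S ∧ W'.map σ.toEmbedding = S' := by
  have c1 : Fintype.card {x // x ∈ W} = Fintype.card {x // x ∈ S} := by
    rw [Fintype.card_coe, Fintype.card_coe, h1]
  have c2 : Fintype.card {x // x ∈ W'} = Fintype.card {x // x ∈ S'} := by
    rw [Fintype.card_coe, Fintype.card_coe, h2]
  let e1 : {x // x ∈ W} ≃ {x // x ∈ S} := Fintype.equivOfCardEq c1
  let e2 : {x // x ∈ W'} ≃ {x // x ∈ S'} := Fintype.equivOfCardEq c2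
  let f : α → α := fun x => if h : x ∈ W then e1 ⟨x, h⟩ else if h' : x ∈ W' then e2 ⟨x, h'⟩ else x
  have f1 : ∀ x (h : x ∈ W), f x = e1 ⟨x, h⟩ := fun x h => by simp only [f, h, dif_pos]
  have f2 : ∀ x (h : x ∈ W'), f x = e2 ⟨x, h⟩ := fun x h => by
    have h' : x ∉ W := fun hx => Finset.disjoint_left.1 hW hx h
    simp only [f, h, h', dif_pos, dif_neg, not_false_eq_true]
  have hf : Set.InjOn f ((W ∪ W' : Finset α) : Set α) := by
    intro x hx y hy hxy
    rw [Finset.mem_coe, Finset.mem_union] at hx hy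
    rcases hx with hx | hx <;> rcases hy with hy | hy
    · rw [f1 x hx, f1 y hy] at hxy
      have := e1.injective (Subtype.ext hxy)
      exact congrArg Subtype.val this
    · rw [f1 x hx, f2 y hy] at hxy
      exact absurd (e2 ⟨y, hy⟩).2 (by
        rw [← hxy]; exact Finset.disjoint_left.1 hS (e1 ⟨x, hx⟩).2)
    · rw [f2 x hx, f1 y hy] at hxy
      exact absurd (e2 ⟨x, hx⟩).2 (by
        rw [hxy]; exact Finset.disjoint_left.1 hS (e1 ⟨y, hy⟩).2)
    · rw [f2 x hx, f2 y hy] at hxy
      have := e2.injective (Subtype.ext hxy)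
      exact congrArg Subtype.val this
  obtain ⟨σ, hσ⟩ := exists_perm_extend (W ∪ W') f hf
  refine ⟨σ, ?_, ?_⟩
  · apply Finset.eq_of_subset_of_card_le
    · intro x hx
      obtain ⟨y, hy, rfl⟩ := Finset.mem_map.1 hx
      show σ y ∈ S
      rw [hσ y (Finset.mem_union_left _ hy), f1 y hy]
      exact (e1 ⟨y, hy⟩).2
    · rw [Finset.card_map, h1]
  · apply Finset.eq_of_subset_of_card_le
    · intro x hx
      obtain ⟨y, hy, rfl⟩ := Finset.mem_map.1 hx
      show σ y ∈ S'
      rw [hσ y (Finset.mem_union_right _ hy), f2 y hy]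
      exact (e2 ⟨y, hy⟩).2
    · rw [Finset.card_map, h2]

/-- the orbit count for pairs of disjoint unions of classes -/
lemma multinomial_le_of_closed {W W' D : Finset α} (hD : ∀ p, ∃ a ∈ D, Rel G p a)
    (hW : Closed G W) (hW' : Closed G W') (hdis : Disjoint W W') :
    (Fintype.card α).choose W.card * (Fintype.card α - W.card).choose W'.card ≤
      G.index * 3 ^ D.card := by
  classical
  have hfin : Fintype (Perm α ⧸ G) := Fintype.ofFinite _
  have hex : ∀ S S' : Finset α, ∃ σ : Perm α, (Disjoint S S' → S.card = W.card →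
      S'.card = W'.card → W.map σ.toEmbedding = S ∧ W'.map σ.toEmbedding = S') := by
    intro S S'
    by_cases h : Disjoint S S' ∧ S.card = W.card ∧ S'.card = W'.card
    · obtain ⟨σ, h1⟩ := exists_perm_two hdis h.1 h.2.1 h.2.2
      exact ⟨σ, fun _ _ _ => h1⟩
    · exact ⟨1, fun h1 h2 h3 => absurd ⟨h1, h2, h3⟩ h⟩
  choose σ hσ using hex
  let P : Finset (Σ _ : Finset α, Finset α) :=
    (Finset.powersetCard W.card (Finset.univ : Finset α)).sigma
      (fun S => Finset.powersetCard W'.card Sᶜ)
  have hP : P.card = (Fintype.card α).choose W.card *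
      (Fintype.card α - W.card).choose W'.card := by
    rw [Finset.card_sigma]
    rw [Finset.sum_congr rfl (g := fun _ => (Fintype.card α - W.card).choose W'.card)]
    · rw [Finset.sum_const, Finset.card_powersetCard, Finset.card_univ, smul_eq_mul]
    · intro S hS
      rw [Finset.card_powersetCard, Finset.card_compl, (Finset.mem_powersetCard.1 hS).2]
  have hPm : ∀ p ∈ P, Disjoint p.1 p.2 ∧ p.1.card = W.card ∧ p.2.card = W'.card := by
    intro p hp
    rw [Finset.mem_sigma, Finset.mem_powersetCard, Finset.mem_powersetCard] at hp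
    refine ⟨?_, hp.1.2, hp.2.2⟩
    rw [Finset.disjoint_right]
    intro x hx
    exact Finset.mem_compl.1 (hp.2.1 hx)
  -- the trace of a pair on `D`
  let col : Finset α → Finset α → {x // x ∈ D} → Fin 3 := fun T T' x =>
    if x.1 ∈ T then 0 else if x.1 ∈ T' then 1 else 2
  let f : {p // p ∈ P} → (Perm α ⧸ G) × ({x // x ∈ D} → Fin 3) := fun p =>
    ((σ p.1.1 p.1.2 : Perm α ⧸ G),
      col (W.map ((((σ p.1.1 p.1.2 : Perm α ⧸ G)).out⁻¹ * σ p.1.1 p.1.2 : Perm α)).toEmbedding)
        (W'.map ((((σ p.1.1 p.1.2 : Perm α ⧸ G)).out⁻¹ * σ p.1.1 p.1.2 : Perm α)).toEmbedding))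
  have hcol : ∀ T₁ T₁' T₂ T₂' : Finset α, Disjoint T₁ T₁' → Disjoint T₂ T₂' →
      col T₁ T₁' = col T₂ T₂' → T₁ ∩ D = T₂ ∩ D ∧ T₁' ∩ D = T₂' ∩ D := by
    intro T₁ T₁' T₂ T₂' h1 h2 h
    have hx : ∀ x ∈ D, (x ∈ T₁ ↔ x ∈ T₂) ∧ (x ∈ T₁' ↔ x ∈ T₂') := by
      intro x hx
      have h3 := congrFun h ⟨x, hx⟩
      have h4 : x ∈ T₁ → x ∉ T₁' := fun h => Finset.disjoint_left.1 h1 h
      have h5 : x ∈ T₂ → x ∉ T₂' := fun h => Finset.disjoint_left.1 h2 h
      simp only [col] at h3
      by_cases a1 : x ∈ T₁ <;> by_cases a2 : x ∈ T₁' <;> by_cases a3 : x ∈ T₂ <;>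
        by_cases a4 : x ∈ T₂' <;> simp_all
    constructor
    · ext x
      rw [Finset.mem_inter, Finset.mem_inter]
      constructor
      · rintro ⟨a, b⟩
        exact ⟨(hx x b).1.1 a, b⟩
      · rintro ⟨a, b⟩
        exact ⟨(hx x b).1.2 a, b⟩
    · ext x
      rw [Finset.mem_inter, Finset.mem_inter]
      constructor
      · rintro ⟨a, b⟩
        exact ⟨(hx x b).2.1 a, b⟩
      · rintro ⟨a, b⟩
        exact ⟨(hx x b).2.2 a, b⟩
  have hf : Function.Injective f := by
    rintro ⟨⟨S, S'⟩, hp⟩ ⟨⟨R, R'⟩, hq⟩ h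
    obtain ⟨a1, a2, a3⟩ := hPm _ hp
    obtain ⟨b1, b2, b3⟩ := hPm _ hq
    simp only at a1 a2 a3 b1 b2 b3
    have h1 := (Prod.ext_iff.1 h).1
    have h2 := (Prod.ext_iff.1 h).2
    simp only [f] at h1 h2
    set s : Perm α := ((σ S S' : Perm α ⧸ G)).out with hs
    have hs' : ((σ R R' : Perm α ⧸ G)).out = s := by rw [← h1]
    rw [hs'] at h2
    have g1 : s⁻¹ * σ S S' ∈ G := by
      have : (s : Perm α ⧸ G) = (σ S S' : Perm α ⧸ G) := QuotientGroup.out_eq' _
      exact QuotientGroup.eq.1 this
    have g2 : s⁻¹ * σ R R' ∈ G := by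
      have : (s : Perm α ⧸ G) = (σ R R' : Perm α ⧸ G) := by
        rw [← h1]; exact QuotientGroup.out_eq' _
      exact QuotientGroup.eq.1 this
    have hmd : ∀ p : Perm α, Disjoint (W.map p.toEmbedding) (W'.map p.toEmbedding) := by
      intro p
      exact (Finset.disjoint_map p.toEmbedding).2 hdis
    obtain ⟨c1, c2⟩ := hcol _ _ _ _ (hmd _) (hmd _) h2
    have d1 := Closed.ext_of_inter hD (hW.map g1) (hW.map g2) c1
    have d2 := Closed.ext_of_inter hD (hW'.map g1) (hW'.map g2) c2
    obtain ⟨e1, e2⟩ := hσ S S' a1 a2 a3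
    obtain ⟨e3, e4⟩ := hσ R R' b1 b2 b3
    have k1 : σ S S' = s * (s⁻¹ * σ S S') := by group
    have k2 : σ R R' = s * (s⁻¹ * σ R R') := by group
    have l1 : S = R := by
      rw [← e1, ← e3, k1, k2, map_mul_perm, map_mul_perm s, d1]
    have l2 : S' = R' := by
      rw [← e2, ← e4, k1, k2, map_mul_perm, map_mul_perm s, d2]
    subst l1
    subst l2
    rfl
  have hcard := Fintype.card_le_of_injective f hf
  rw [Fintype.card_coe, hP, Fintype.card_prod, Fintype.card_fun, Fintype.card_fin,
    Fintype.card_coe, ← Nat.card_eq_fintype_card (α := Perm α ⧸ G)] at hcard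
  exact hcard

lemma choose_half_le {n a b c : ℕ} (h : n = a + b + c) (ha : 2 * a ≤ n) (hb : 2 * b ≤ n)
    (hc : 2 * c ≤ n) : n.choose (n / 2) ≤ n.choose a * (n - a).choose b := by
  have h1 : n.choose (n / 2) * (n / 2).choose a = n.choose a * (n - a).choose (n / 2 - a) :=
    Nat.choose_mul (by omega)
  have h2 : (n - a).choose (n / 2 - a) ≤ (n - a).choose b :=
    choose_mono_mid (by omega) (by omega)
  have h3 : 1 ≤ (n / 2).choose a := Nat.choose_pos (by omega)
  calc n.choose (n / 2) ≤ n.choose (n / 2) * (n / 2).choose a := Nat.le_mul_of_pos_right _ h3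
    _ = n.choose a * (n - a).choose (n / 2 - a) := h1
    _ ≤ _ := Nat.mul_le_mul_left _ h2

/-- a subgroup of small index has a class of more than `n - r` points -/
theorem exists_big2 {b r : ℕ} (hb : G.index < b.factorial)
    (h3 : G.index * 3 ^ (2 * b) < (Fintype.card α).choose (Fintype.card α / 2))
    (h : G.index * 2 ^ (2 * b) < (Fintype.card α).choose r) (hr : 2 * r ≤ Fintype.card α)
    (hn : 0 < Fintype.card α) :
    ∃ a, Fintype.card α < (cls G a).card + r := by
  classical
  set n := Fintype.card α with hndef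
  obtain ⟨D, hDc, hD⟩ := exists_transversal hb
  have hch : ∀ W : Finset α, Closed G W → n.choose W.card < n.choose r := by
    intro W hW
    refine lt_of_le_of_lt ((choose_le_of_closed hD hW).trans ?_) h
    exact Nat.mul_le_mul_left _ (Nat.pow_le_pow_right (by norm_num) hDc)
  obtain ⟨W, hW, hmax⟩ := (Finset.univ.filter
    (fun W : Finset α => Closed G W ∧ 2 * W.card ≤ n)).exists_max_image Finset.card
    ⟨∅, by
      rw [Finset.mem_filter]
      refine ⟨Finset.mem_univ _, ?_, ?_⟩
      · intro a ha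
        exact absurd ha (Finset.notMem_empty _)
      · simp⟩
  rw [Finset.mem_filter] at hW
  obtain ⟨-, hWc, hWn⟩ := hW
  obtain ⟨a, ha⟩ : ∃ a, a ∉ W := by
    by_contra hc
    push Not at hc
    have : (Finset.univ : Finset α) ⊆ W := fun x _ => hc x
    have := Finset.card_le_card this
    rw [Finset.card_univ] at this
    omega
  have hdis : Disjoint W (cls G a) := by
    rw [Finset.disjoint_right]
    intro x hx hxW
    exact ha (hWc x hxW a (mem_cls.1 hx).symm)
  have hun : Closed G (W ∪ cls G a) := by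
    intro x hx y hxy
    rw [Finset.mem_union] at *
    rcases hx with hx | hx
    · exact Or.inl (hWc x hx y hxy)
    · exact Or.inr (closed_cls a x hx y hxy)
  have hcu := Finset.card_union_of_disjoint hdis
  have hpos : 0 < (cls G a).card := Finset.card_pos.2 ⟨a, self_mem_cls a⟩
  have hle : (W ∪ cls G a).card ≤ n := Finset.card_le_univ _
  have hgt : n < 2 * (W ∪ cls G a).card := by
    by_contra hc
    push Not at hc
    have := hmax (W ∪ cls G a) (by
      rw [Finset.mem_filter]
      exact ⟨Finset.mem_univ _, hun, hc⟩)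
    omega
  have hbig : n < 2 * (cls G a).card := by
    by_contra hc
    push Not at hc
    have h5 := choose_half_le (n := n) (a := W.card) (b := (cls G a).card)
      (c := n - W.card - (cls G a).card) (by omega) hWn hc (by omega)
    have h6 := multinomial_le_of_closed hD hWc (closed_cls a) hdis
    have h7 : G.index * 3 ^ D.card ≤ G.index * 3 ^ (2 * b) :=
      Nat.mul_le_mul_left _ (Nat.pow_le_pow_right (by norm_num) hDc)
    rw [← hndef] at h6
    omega
  refine ⟨a, ?_⟩
  by_contra hc
  push Not at hc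
  have h8 := hch _ (closed_cls a)
  have h9 : n.choose (cls G a).card = n.choose (n - (cls G a).card) :=
    (Nat.choose_symm (Finset.card_le_univ _)).symm
  have h10 : n.choose r ≤ n.choose (n - (cls G a).card) :=
    choose_mono_mid (by omega) (by omega)
  omega

/-- the canonical support -/
theorem sp_bound2 {b r : ℕ} (hb : G.index < b.factorial)
    (h3 : G.index * 3 ^ (2 * b) < (Fintype.card α).choose (Fintype.card α / 2))
    (h : G.index * 2 ^ (2 * b) < (Fintype.card α).choose r) (hr : 2 * r ≤ Fintype.card α)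
    (hn : 0 < Fintype.card α) :
    (sp G).card < r ∧ ∀ π : Perm α, sign π = 1 → (∀ x ∈ sp G, π x = x) → π ∈ G := by
  obtain ⟨a, ha⟩ := exists_big2 hb h3 h hr hn
  have hsp : ∀ x, x ∈ sp G ↔ x ∉ cls G a := by
    intro x
    rw [mem_sp]
    constructor
    · intro h1 h2
      rw [mem_cls] at h2
      rw [← cls_eq_of_rel h2] at h1
      omega
    · intro h1
      have hd : Disjoint (cls G x) (cls G a) := by
        rw [Finset.disjoint_left]
        intro y hy1 hy2
        apply h1
        rw [mem_cls] at *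
        exact hy2.trans hy1.symm
      have h2 := Finset.card_union_of_disjoint hd
      have h3 : (cls G x ∪ cls G a).card ≤ Fintype.card α := Finset.card_le_univ _
      rw [h2] at h3
      omega
  constructor
  · have h1 : Disjoint (sp G) (cls G a) := by
      rw [Finset.disjoint_left]
      intro y hy
      exact (hsp y).1 hy
    have h2 := Finset.card_union_of_disjoint h1
    have h3 : (sp G ∪ cls G a).card ≤ Fintype.card α := Finset.card_le_univ _
    rw [h2] at h3
    omega
  · intro π hs hfix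
    apply mem_of_fix_outside a hs
    intro x hx
    apply hfix
    rw [hsp, mem_cls]
    exact hx

lemma Rel.mono' {G H : Subgroup (Perm α)} (hle : H ≤ G) {a b : α} (h : Rel H a b) :
    Rel G a b := by
  rcases h with h | ⟨h1, c, h2, h3, h4⟩
  · exact Or.inl h
  · exact Or.inr ⟨h1, c, h2, h3, hle h4⟩

lemma sp_mono {G H : Subgroup (Perm α)} (hle : H ≤ G) : sp G ⊆ sp H := by
  intro x hx
  rw [mem_sp] at *
  have : (cls H x).card ≤ (cls G x).card := by
    apply Finset.card_le_card
    intro y hy
    rw [mem_cls] at *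
    exact Rel.mono' hle hy
  omega

end Pool.Agent.SymSC
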