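import Mathlib
import Pool.Agent.Lib.MP_8fffab_lc_SymB.Group

/-!
# Many even permutations with prescribed behaviour
-/

namespace Pool.Agent.SymSC

set_option linter.unusedSectionVars false

open Equiv Equiv.Perm

variable {α : Type} [DecidableEq α] [Fintype α]

lemma exists_even (s : Finset α) (hs : s.card + 2 ≤ Fintype.card α) (ρ : Perm α) :
    ∃ κ : Perm α, sign κ = 1 ∧ ∀ x ∈ s, κ x = ρ x := by
  have h1 : 1 < sᶜ.card := by
    rw [Finset.card_compl]
    omega
  obtain ⟨a, ha, b, hb, hab⟩ := Finset.one_lt_card.1 h1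
  rw [Finset.mem_compl] at ha hb
  rcases Int.units_eq_one_or (sign ρ) with h | h
  · exact ⟨ρ, h, fun _ _ => rfl⟩
  · refine ⟨ρ * swap a b, ?_, ?_⟩
    · rw [Perm.sign_mul, h, Perm.sign_swap hab]
      rfl
    · intro x hx
      rw [Perm.mul_apply, swap_apply_of_ne_of_ne]
      · rintro rfl
        exact ha hx
      · rintro rfl
        exact hb hx

/-- a permutation which fixes `S` and takes `U` to `Z` on `T` -/
lemma exists_rho {S T U Z : Finset α} {r : ℕ} (hr : (S ∪ T).card < r) (hZ1 : r ≤ Z.card)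
    (hZ2 : Z.card + r ≤ Fintype.card α) (hag : ∀ x ∈ S, x ∈ U ↔ x ∈ Z) :
    ∃ ρ : Perm α, (∀ x ∈ S, ρ x = x) ∧ ∀ x ∈ T, ρ x ∈ Z ↔ x ∈ U := by
  classical
  have hST : S.card + (T \ S).card < r := by
    rw [← Finset.card_union_of_disjoint Finset.disjoint_sdiff, Finset.union_sdiff_self_eq_union]
    exact hr
  have hA1 : ((T \ S) ∩ U).card ≤ (T \ S).card := Finset.card_le_card Finset.inter_subset_left
  have hA2 : ((T \ S) \ U).card ≤ (T \ S).card := Finset.card_le_card Finset.sdiff_subset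
  have hB1 : Z.card - S.card ≤ (Z \ S).card := Finset.le_card_sdiff S Z
  have hB2 : Zᶜ.card - S.card ≤ (Zᶜ \ S).card := Finset.le_card_sdiff S Zᶜ
  rw [Finset.card_compl] at hB2
  obtain ⟨e1⟩ : Nonempty ({x // x ∈ (T \ S) ∩ U} ↪ {x // x ∈ Z \ S}) :=
    Function.Embedding.nonempty_of_card_le (by rw [Fintype.card_coe, Fintype.card_coe]; omega)
  obtain ⟨e2⟩ : Nonempty ({x // x ∈ (T \ S) \ U} ↪ {x // x ∈ Zᶜ \ S}) :=
    Function.Embedding.nonempty_of_card_le (by rw [Fintype.card_coe, Fintype.card_coe]; omega)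
  let f : α → α := fun x => if h : x ∈ (T \ S) ∩ U then e1 ⟨x, h⟩ else
    if h' : x ∈ (T \ S) \ U then e2 ⟨x, h'⟩ else x
  have f0 : ∀ x ∈ S, f x = x := fun x hx => by
    have h1 : x ∉ (T \ S) ∩ U := by simp [hx]
    have h2 : x ∉ (T \ S) \ U := by simp [hx]
    simp only [f, h1, h2, dif_neg, not_false_eq_true]
  have f1 : ∀ x (h : x ∈ (T \ S) ∩ U), f x = e1 ⟨x, h⟩ := fun x h => by
    simp only [f, h, dif_pos]
  have f2 : ∀ x (h : x ∈ (T \ S) \ U), f x = e2 ⟨x, h⟩ := fun x h => by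
    have h1 : x ∉ (T \ S) ∩ U := by
      rw [Finset.mem_sdiff] at h
      simp [h.2]
    simp only [f, h, h1, dif_pos, dif_neg, not_false_eq_true]
  have m1 : ∀ x (h : x ∈ (T \ S) ∩ U), f x ∈ Z \ S := fun x h => by rw [f1 x h]; exact (e1 _).2
  have m2 : ∀ x (h : x ∈ (T \ S) \ U), f x ∈ Zᶜ \ S := fun x h => by rw [f2 x h]; exact (e2 _).2
  have hcase : ∀ x ∈ S ∪ T, x ∈ S ∨ x ∈ (T \ S) ∩ U ∨ x ∈ (T \ S) \ U := by
    intro x hx
    simp only [Finset.mem_union, Finset.mem_inter, Finset.mem_sdiff] at *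
    tauto
  have hf : Set.InjOn f ((S ∪ T : Finset α) : Set α) := by
    intro x hx y hy hxy
    rw [Finset.mem_coe] at hx hy
    rcases hcase x hx with hx | hx | hx <;> rcases hcase y hy with hy | hy | hy
    · rwa [f0 x hx, f0 y hy] at hxy
    · have := m1 y hy
      rw [← hxy, f0 x hx] at this
      exact absurd hx (Finset.mem_sdiff.1 this).2
    · have := m2 y hy
      rw [← hxy, f0 x hx] at this
      exact absurd hx (Finset.mem_sdiff.1 this).2
    · have := m1 x hx
      rw [hxy, f0 y hy] at this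
      exact absurd hy (Finset.mem_sdiff.1 this).2
    · rw [f1 x hx, f1 y hy] at hxy
      exact congrArg Subtype.val (e1.injective (Subtype.ext hxy))
    · have h1 := (Finset.mem_sdiff.1 (m1 x hx)).1
      have h2 := (Finset.mem_sdiff.1 (m2 y hy)).1
      rw [hxy] at h1
      exact absurd h1 (Finset.mem_compl.1 h2)
    · have := m2 x hx
      rw [hxy, f0 y hy] at this
      exact absurd hy (Finset.mem_sdiff.1 this).2
    · have h1 := (Finset.mem_sdiff.1 (m2 x hx)).1
      have h2 := (Finset.mem_sdiff.1 (m1 y hy)).1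
      rw [hxy] at h1
      exact absurd h2 (Finset.mem_compl.1 h1)
    · rw [f2 x hx, f2 y hy] at hxy
      exact congrArg Subtype.val (e2.injective (Subtype.ext hxy))
  obtain ⟨ρ, hρ⟩ := exists_perm_extend (S ∪ T) f hf
  refine ⟨ρ, ?_, ?_⟩
  · intro x hx
    rw [hρ x (Finset.mem_union_left _ hx), f0 x hx]
  · intro x hx
    have hxu := Finset.mem_union_right S hx
    rw [hρ x hxu]
    rcases hcase x hxu with h | h | h
    · rw [f0 x h]
      exact (hag x h).symm
    · have h1 := (Finset.mem_sdiff.1 (m1 x h)).1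
      exact ⟨fun _ => (Finset.mem_inter.1 h).2, fun _ => h1⟩
    · have h1 := Finset.mem_compl.1 (Finset.mem_sdiff.1 (m2 x h)).1
      exact ⟨fun h2 => absurd h2 h1, fun h2 => absurd h2 (Finset.mem_sdiff.1 h).2⟩

/-- `θ` even permutations which fix `S`, take `U` to `Z` on `T` and have different images of
`T` -/
lemma many_perms {S T U Z : Finset α} {r θ : ℕ} {x0 : α} (hx0 : x0 ∈ T) (hx0' : x0 ∉ S)
    (hr : (S ∪ T).card < r) (hZ1 : r + θ ≤ Z.card)
    (hZ2 : Z.card + r + θ ≤ Fintype.card α) (hag : ∀ x ∈ S, x ∈ U ↔ x ∈ Z) :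
    ∃ (Q : Finset α) (κ : α → Perm α), θ ≤ Q.card ∧ ∀ z ∈ Q, sign (κ z) = 1 ∧
      (∀ x ∈ S, κ z x = x) ∧ (∀ x ∈ T, κ z x ∈ Z ↔ x ∈ U) ∧ κ z x0 = z ∧
      ∀ z' ∈ Q, z ≠ z' → z ∉ T.map (κ z').toEmbedding := by
  classical
  obtain ⟨ρ, h1, h2⟩ := exists_rho (S := S) (T := T) (U := U) (Z := Z) (r := r) hr (by omega)
    (by omega) hag
  set R : Finset α := ((S ∪ T).erase x0).map ρ.toEmbedding with hR
  have hRc : R.card < r := by
    rw [hR, Finset.card_map]
    exact lt_of_le_of_lt (Finset.card_le_card (Finset.erase_subset _ _)) hr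
  have hxU : x0 ∈ S ∪ T := Finset.mem_union_right _ hx0
  have hρR : ∀ x ∈ S ∪ T, x ≠ x0 → ρ x ∈ R := by
    intro x hx hne
    exact Finset.mem_map_of_mem ρ.toEmbedding (Finset.mem_erase.2 ⟨hne, hx⟩)
  let Q : Finset α := (if x0 ∈ U then Z else Zᶜ) \ R
  have hex : ∀ z : α, ∃ κ : Perm α, sign κ = 1 ∧ ∀ x ∈ S ∪ T, κ x = (swap (ρ x0) z * ρ) x := by
    intro z
    exact exists_even (S ∪ T) (by omega) _
  choose κ hκ1 hκ2 using hex
  have hval0 : ∀ z, κ z x0 = z := by
    intro z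
    rw [hκ2 z x0 hxU, Perm.mul_apply, swap_apply_left]
  have hval1 : ∀ z ∈ Q, ∀ x ∈ S ∪ T, x ≠ x0 → κ z x = ρ x := by
    intro z hz x hx hne
    rw [hκ2 z x hx, Perm.mul_apply, swap_apply_of_ne_of_ne]
    · exact fun h => hne (ρ.injective h)
    · intro h
      exact (Finset.mem_sdiff.1 hz).2 (h ▸ hρR x hx hne)
  refine ⟨Q, κ, ?_, ?_⟩
  · have h3 := Finset.le_card_sdiff R (if x0 ∈ U then Z else Zᶜ)
    have h4 : r + θ ≤ (if x0 ∈ U then Z else Zᶜ).card := by
      split_ifs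
      · exact hZ1
      · rw [Finset.card_compl]
        omega
    show θ ≤ ((if x0 ∈ U then Z else Zᶜ) \ R).card
    omega
  · intro z hz
    refine ⟨hκ1 z, ?_, ?_, hval0 z, ?_⟩
    · intro x hx
      rw [hval1 z hz x (Finset.mem_union_left _ hx) (by rintro rfl; exact hx0' hx), h1 x hx]
    · intro x hx
      by_cases hxx : x = x0
      · rw [hxx, hval0]
        have hz1 := (Finset.mem_sdiff.1 hz).1
        by_cases hU : x0 ∈ U
        · rw [if_pos hU] at hz1
          exact ⟨fun _ => hU, fun _ => hz1⟩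
        · rw [if_neg hU, Finset.mem_compl] at hz1
          exact ⟨fun h => absurd h hz1, fun h => absurd h hU⟩
      · rw [hval1 z hz x (Finset.mem_union_right _ hx) hxx]
        exact h2 x hx
    · intro z' hz' hne hmem
      obtain ⟨x, hx, hxz⟩ := Finset.mem_map.1 hmem
      have hxz : κ z' x = z := hxz
      by_cases hxx : x = x0
      · rw [hxx, hval0] at hxz
        exact hne hxz.symm
      · rw [hval1 z' hz' x (Finset.mem_union_right _ hx) hxx] at hxz
        exact (Finset.mem_sdiff.1 hz).2 (hxz ▸ hρR x (Finset.mem_union_right _ hx) hxx)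

end Pool.Agent.SymSC
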