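import Mathlib
import Pool.Agent.Lib.MP_8fffab_lc_Sym.Final
import Pool.Agent.Lib.MP_8fffab_lc_SymB.Defs
import Pool.Agent.Lib.MP_8fffab_lc_SymB.Perm

/-!
# Small circuits see only a small part of a hidden set
-/

namespace Pool.Agent.SymSC

set_option linter.unusedSectionVars false

open Equiv Equiv.Perm
open Pool.Agent.SymCirc (sp sp_conj app_inv inv_app)

section circuit
variable {V : Type} [Fintype V] [DecidableEq V] {d : ℕ} {Γ : Type} [Fintype Γ]

/-- the multiplicity of an input of a gate -/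
def Circuit.mult (C : Circuit V d Γ) (g : Γ) : DSet V d ⊕ Γ → ℕ
  | Sum.inl A => C.inVar g A
  | Sum.inr h => C.inGate g h

/-- the support of a variable or gate -/
noncomputable def Circuit.isup (C : Circuit V d Γ) : DSet V d ⊕ Γ → Finset V
  | Sum.inl A => A.1
  | Sum.inr h => C.gsp h

/-- the value of a variable or gate -/
noncomputable def Circuit.ival (C : Circuit V d Γ) (x : DSet V d → Bool) : DSet V d ⊕ Γ → Bool
  | Sum.inl A => x A
  | Sum.inr h => C.val x h

/-- the action on variables and gates -/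
def imove (π : Perm V) (τ : Perm Γ) : DSet V d ⊕ Γ → DSet V d ⊕ Γ
  | Sum.inl A => Sum.inl (A.move π)
  | Sum.inr h => Sum.inr (τ h)

lemma Circuit.fanin_eq (C : Circuit V d Γ) (g : Γ) : C.fanin g = ∑ c, C.mult g c := by
  rw [Fintype.sum_sum_type]
  rfl

lemma Circuit.val_eq' (C : Circuit V d Γ) (x : DSet V d → Bool) (g : Γ) :
    C.val x g = C.op g (∑ c, C.mult g c * (C.ival x c).toNat) := by
  rw [C.val_eq, Fintype.sum_sum_type]
  rfl

lemma Circuit.mult_imove {C : Circuit V d Γ} {π : Perm V} {τ : Perm Γ} (h : C.IsAut π τ)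
    (g : Γ) (c : DSet V d ⊕ Γ) : C.mult (τ g) (imove π τ c) = C.mult g c := by
  match c with
  | Sum.inl A => exact h.var_eq g A
  | Sum.inr k => exact h.gate_eq g k

lemma Circuit.isup_imove {C : Circuit V d Γ} {π : Perm V} {τ : Perm Γ} (h : C.IsAut π τ)
    (c : DSet V d ⊕ Γ) : C.isup (imove π τ c) = (C.isup c).map π.toEmbedding := by
  match c with
  | Sum.inl A => rfl
  | Sum.inr k => exact C.gsp_map h k

lemma Circuit.ival_imove {C : Circuit V d Γ} {π : Perm V} {τ : Perm Γ} (h : C.IsAut π τ)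
    {x x' : DSet V d → Bool} (hx : ∀ A : DSet V d, x' (A.move π) = x A) (c : DSet V d ⊕ Γ) :
    C.ival x' (imove π τ c) = C.ival x c := by
  match c with
  | Sum.inl A => exact hx A
  | Sum.inr k => exact Circuit.val_aut h hx k

/-- the instance hiding `Y`: the sets which meet `Y` in an even number of points -/
def hide (d : ℕ) (Y : Finset V) : DSet V d → Bool := fun A => decide (Even (A.1 ∩ Y).card)

lemma hide_move (Y : Finset V) (κ : Perm V) (A : DSet V d) :
    hide d (Y.map κ.toEmbedding) (A.move κ) = hide d Y A := by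
  unfold hide
  have h1 : (A.move κ).1 ∩ Y.map κ.toEmbedding = (A.1 ∩ Y).map κ.toEmbedding := by
    show A.1.map κ.toEmbedding ∩ Y.map κ.toEmbedding = _
    rw [Finset.map_inter]
  rw [h1, Finset.card_map]

lemma hide_congr {Y Y' : Finset V} {A : DSet V d} (h : ∀ x ∈ A.1, x ∈ Y ↔ x ∈ Y') :
    hide d Y A = hide d Y' A := by
  unfold hide
  have h1 : A.1 ∩ Y = A.1 ∩ Y' := by
    ext x
    rw [Finset.mem_inter, Finset.mem_inter]
    constructor
    · rintro ⟨a, b⟩; exact ⟨a, (h x a).1 b⟩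
    · rintro ⟨a, b⟩; exact ⟨a, (h x a).2 b⟩
  rw [h1]

/-- the sizes of the hidden sets -/
def InRange (r θ : ℕ) (Y : Finset V) : Prop :=
  r + θ ≤ Y.card ∧ Y.card + r + θ ≤ Fintype.card V

lemma InRange.map {r θ : ℕ} {Y : Finset V} (h : InRange r θ Y) (κ : Perm V) :
    InRange r θ (Y.map κ.toEmbedding) := by
  unfold InRange at *
  rwa [Finset.card_map]

/-- supports of wires are small -/
def Circuit.Good (C : Circuit V d Γ) (r : ℕ) : Prop :=
  ∀ g c, C.mult g c ≠ 0 → (C.gsp g ∪ C.isup c).card < r ∧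
    ∀ π : Perm V, sign π = 1 → (∀ x ∈ C.gsp g, π x = x) → π ∈ C.stab g

/-- a gate with support `S` does not distinguish hidden sets which agree on `S` -/
def Circuit.BlindAt (C : Circuit V d Γ) (r θ : ℕ) (g : Γ) : Prop :=
  ∀ Y Y' : Finset V, InRange r θ Y → InRange r θ Y' → (∀ x ∈ C.gsp g, x ∈ Y ↔ x ∈ Y') →
    C.val (hide d Y) g = C.val (hide d Y') g

lemma Circuit.ival_congr {C : Circuit V d Γ} {r θ : ℕ} {g : Γ}
    (ih : ∀ h, C.inGate g h ≠ 0 → C.BlindAt r θ h) {c : DSet V d ⊕ Γ} (hc : C.mult g c ≠ 0)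
    {Y Y' : Finset V} (h1 : InRange r θ Y) (h2 : InRange r θ Y')
    (h : ∀ x ∈ C.isup c, x ∈ Y ↔ x ∈ Y') : C.ival (hide d Y) c = C.ival (hide d Y') c := by
  match c with
  | Sum.inl A => exact hide_congr h
  | Sum.inr k => exact ih k hc Y Y' h1 h2 h

open Classical in
lemma Circuit.many_items {C : Circuit V d Γ} {r θ : ℕ} (hC : C.Good r) {g : Γ}
    (ih : ∀ h, C.inGate g h ≠ 0 → C.BlindAt r θ h) {c : DSet V d ⊕ Γ} (hc : C.mult g c ≠ 0)
    {U Z : Finset V} (hU : InRange r θ U) (hZ : InRange r θ Z)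
    (hag : ∀ x ∈ C.gsp g, x ∈ U ↔ x ∈ Z) {x0 : V} (hx0 : x0 ∈ C.isup c) (hx0' : x0 ∉ C.gsp g) :
    θ ≤ (Finset.univ.filter (fun c' => C.mult g c' ≠ 0 ∧
      C.ival (hide d Z) c' = C.ival (hide d U) c)).card := by
  obtain ⟨hr, hst⟩ := hC g c hc
  obtain ⟨Q, κ, hQ, hκ⟩ := many_perms (S := C.gsp g) (T := C.isup c) (U := U) (Z := Z) hx0 hx0'
    hr hZ.1 hZ.2 hag
  refine hQ.trans ?_
  have hτ : ∀ z, ∃ τ : Perm Γ, z ∈ Q → C.IsAut (κ z) τ ∧ τ g = g := by
    intro z
    by_cases hz : z ∈ Q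
    · obtain ⟨τ, h1, h2⟩ := hst (κ z) (hκ z hz).1 (hκ z hz).2.1
      exact ⟨τ, fun _ => ⟨h1, h2⟩⟩
    · exact ⟨1, fun h => absurd h hz⟩
  choose τ hτ using hτ
  apply Finset.card_le_card_of_injOn (fun z => imove (κ z) (τ z) c)
  · intro z hz
    rw [Finset.mem_coe] at hz
    rw [Finset.mem_coe, Finset.mem_filter]
    obtain ⟨h1, h2⟩ := hτ z hz
    have h3 : C.mult g (imove (κ z) (τ z) c) = C.mult g c := by
      have := Circuit.mult_imove h1 g c
      rwa [h2] at this
    refine ⟨Finset.mem_univ _, by rw [h3]; exact hc, ?_⟩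
    rw [← Circuit.ival_imove h1 (x := hide d U) (x' := hide d (U.map (κ z).toEmbedding))
      (fun A => hide_move U (κ z) A) c]
    apply Circuit.ival_congr ih (by rw [h3]; exact hc) hZ (hU.map _)
    intro x hx
    rw [Circuit.isup_imove h1] at hx
    obtain ⟨y, hy, rfl⟩ := Finset.mem_map.1 hx
    show κ z y ∈ Z ↔ κ z y ∈ U.map (κ z).toEmbedding
    rw [(hκ z hz).2.2.1 y hy]
    constructor
    · intro h
      exact Finset.mem_map_of_mem (κ z).toEmbedding h
    · intro h
      obtain ⟨y', hy', he⟩ := Finset.mem_map.1 h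
      rwa [← (κ z).injective he]
  · intro z hz z' hz' h
    rw [Finset.mem_coe] at hz hz'
    by_contra hne
    have h1 := (hτ z hz).1
    have h2 := (hτ z' hz').1
    have h3 : C.isup (imove (κ z) (τ z) c) = C.isup (imove (κ z') (τ z') c) :=
      congrArg C.isup h
    rw [Circuit.isup_imove h1, Circuit.isup_imove h2] at h3
    have h4 : z ∈ (C.isup c).map (κ z).toEmbedding := by
      have := Finset.mem_map_of_mem (κ z).toEmbedding hx0
      have e : (κ z).toEmbedding x0 = z := (hκ z hz).2.2.2.1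
      rwa [e] at this
    rw [h3] at h4
    exact (hκ z hz).2.2.2.2 z' hz' hne h4

lemma sum_ge_card {ι : Type} [Fintype ι] (m : ι → ℕ) (X : ι → Bool) :
    (Finset.univ.filter (fun c => m c ≠ 0 ∧ X c = true)).card ≤ ∑ c, m c * (X c).toNat := by
  classical
  rw [Finset.card_filter]
  apply Finset.sum_le_sum
  intro c _
  cases hX : X c <;> by_cases hm : m c = 0 <;> simp [hm]
  omega

lemma sum_add_card_le {ι : Type} [Fintype ι] (m : ι → ℕ) (X : ι → Bool) :
    ∑ c, m c * (X c).toNat + (Finset.univ.filter (fun c => m c ≠ 0 ∧ X c = false)).card ≤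
      ∑ c, m c := by
  classical
  rw [Finset.card_filter, ← Finset.sum_add_distrib]
  apply Finset.sum_le_sum
  intro c _
  cases hX : X c <;> by_cases hm : m c = 0 <;> simp [hm]
  omega

theorem Circuit.blind {C : Circuit V d Γ} {r θ : ℕ} (hC : C.Good r) (hθ : C.CountsUpTo θ)
    (g : Γ) : C.BlindAt r θ g := by
  classical
  induction hrk : C.rank g using Nat.strong_induction_on generalizing g with
  | _ n ih =>
    have ih' : ∀ h, C.inGate g h ≠ 0 → C.BlindAt r θ h :=
      fun h hw => ih (C.rank h) (hrk ▸ C.acyclic hw) h rfl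
    intro Y Y' hY hY' hag
    rw [C.val_eq', C.val_eq']
    by_cases hall : ∀ c, C.mult g c ≠ 0 → C.ival (hide d Y) c = C.ival (hide d Y') c
    · congr 1
      apply Finset.sum_congr rfl
      intro c _
      by_cases hc : C.mult g c = 0
      · rw [hc, zero_mul, zero_mul]
      · rw [hall c hc]
    · push Not at hall
      obtain ⟨c, hc, hne⟩ := hall
      obtain ⟨x0, hx0, hx0'⟩ : ∃ x0 ∈ C.isup c, x0 ∉ C.gsp g := by
        by_contra hcon
        push Not at hcon
        exact hne (Circuit.ival_congr ih' hc hY hY' (fun x hx => hag x (hcon x hx)))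
      -- every truth value occurs among the inputs, for each of the two hidden sets
      have key : ∀ Z : Finset V, InRange r θ Z → (∀ x ∈ C.gsp g, x ∈ Y ↔ x ∈ Z) →
          ∀ v : Bool, θ ≤ (Finset.univ.filter (fun c' => C.mult g c' ≠ 0 ∧
            C.ival (hide d Z) c' = v)).card := by
        intro Z hZ hYZ v
        have hv : C.ival (hide d Y) c = v ∨ C.ival (hide d Y') c = v := by
          revert hne
          cases C.ival (hide d Y) c <;> cases C.ival (hide d Y') c <;> cases v <;> simp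
        rcases hv with hv | hv
        · have := Circuit.many_items hC ih' hc hY hZ hYZ hx0 hx0'
          rwa [hv] at this
        · have := Circuit.many_items hC ih' hc hY' hZ
            (fun x hx => ((hag x hx).symm.trans (hYZ x hx))) hx0 hx0'
          rwa [hv] at this
      have hb : ∀ Z : Finset V, InRange r θ Z → (∀ x ∈ C.gsp g, x ∈ Y ↔ x ∈ Z) →
          θ ≤ ∑ c, C.mult g c * (C.ival (hide d Z) c).toNat ∧
          (∑ c, C.mult g c * (C.ival (hide d Z) c).toNat) + θ ≤ C.fanin g := by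
        intro Z hZ hYZ
        constructor
        · exact (key Z hZ hYZ true).trans (sum_ge_card _ _)
        · rw [C.fanin_eq]
          refine le_trans ?_ (sum_add_card_le (C.mult g) (C.ival (hide d Z)))
          exact Nat.add_le_add_left (key Z hZ hYZ false) _
      obtain ⟨b1, b2⟩ := hb Y hY (fun _ _ => Iff.rfl)
      obtain ⟨b3, b4⟩ := hb Y' hY' hag
      exact hθ g _ _ b1 b2 b3 b4

end circuit

end Pool.Agent.SymSC
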