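import Mathlib
import Pool.Agent.Lib.MP_8fffab_lc_SymB.Blind

/-!
# Circuits with few wires have small supports
-/

namespace Pool.Agent.SymSC

set_option linter.unusedSectionVars false

open Equiv Equiv.Perm
open Pool.Agent.SymCirc (sp mem_sp sp_conj app_inv inv_app)

lemma index_le_of_map {P X : Type} [Group P] [Finite X] (K H : Subgroup P) (hle : H ≤ K)
    (F : K → X) (hF : ∀ k k' : K, F k = F k' → (k : P)⁻¹ * k' ∈ H) :
    H.index ≤ Nat.card X * K.index := by
  rw [← Subgroup.relIndex_mul_index hle]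
  apply Nat.mul_le_mul_right
  have h6 : H.relIndex K = Nat.card (K ⧸ H.subgroupOf K) := rfl
  rw [h6]
  apply Nat.card_le_card_of_injective (fun q : K ⧸ H.subgroupOf K => F q.out)
  intro q q' h
  have h2 : (q.out)⁻¹ * q'.out ∈ H.subgroupOf K := by
    rw [Subgroup.mem_subgroupOf]
    exact hF _ _ h
  have h3 := QuotientGroup.eq.2 h2
  rwa [QuotientGroup.out_eq', QuotientGroup.out_eq'] at h3

section circuit
variable {V : Type} [Fintype V] [DecidableEq V] {d : ℕ} {Γ : Type} [Fintype Γ]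

/-- the permutations with a lift that fixes the gate `g` and its input `c` -/
def Circuit.stab2 (C : Circuit V d Γ) (g : Γ) (c : DSet V d ⊕ Γ) : Subgroup (Perm V) where
  carrier := {π | ∃ τ, C.IsAut π τ ∧ τ g = g ∧ imove π τ c = c}
  one_mem' := ⟨1, Circuit.IsAut.one C, rfl, by
    match c with
    | Sum.inl A => exact congrArg Sum.inl (DSet.move_one A)
    | Sum.inr h => rfl⟩
  mul_mem' := by
    rintro π π' ⟨τ, h, hg, hc⟩ ⟨τ', h', hg', hc'⟩
    refine ⟨τ * τ', h.mul h', by rw [Perm.mul_apply, hg', hg], ?_⟩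
    match c with
    | Sum.inl A =>
      have h1 : A.move π = A := Sum.inl.inj hc
      have h2 : A.move π' = A := Sum.inl.inj hc'
      show Sum.inl (A.move (π * π')) = Sum.inl A
      rw [DSet.move_mul, h2, h1]
    | Sum.inr k =>
      have h1 : τ k = k := Sum.inr.inj hc
      have h2 : τ' k = k := Sum.inr.inj hc'
      show Sum.inr ((τ * τ') k) = Sum.inr k
      rw [Perm.mul_apply, h2, h1]
  inv_mem' := by
    rintro π ⟨τ, h, hg, hc⟩
    refine ⟨τ⁻¹, h.inv, by rw [inv_eq_iff_eq]; exact hg.symm, ?_⟩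
    match c with
    | Sum.inl A =>
      have h1 : A.move π = A := Sum.inl.inj hc
      show Sum.inl (A.move π⁻¹) = Sum.inl A
      congr 1
      conv_lhs => rw [← h1]
      rw [← DSet.move_mul, inv_mul_cancel, DSet.move_one]
    | Sum.inr k =>
      have h1 : τ k = k := Sum.inr.inj hc
      show Sum.inr (τ⁻¹ k) = Sum.inr k
      congr 1
      rw [inv_eq_iff_eq]
      exact h1.symm

lemma Circuit.stab2_le_stab (C : Circuit V d Γ) (g : Γ) (c : DSet V d ⊕ Γ) :
    C.stab2 g c ≤ C.stab g := by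
  rintro π ⟨τ, h, hg, -⟩
  exact ⟨τ, h, hg⟩

lemma Circuit.stab2_le_stab' (C : Circuit V d Γ) (g h : Γ) :
    C.stab2 g (Sum.inr h) ≤ C.stab h := by
  rintro π ⟨τ, h, -, hc⟩
  exact ⟨τ, h, Sum.inr.inj hc⟩

lemma imove_inv_mul {π π' : Perm V} {τ τ' : Perm Γ} {c : DSet V d ⊕ Γ}
    (h : imove π τ c = imove π' τ' c) : imove (π⁻¹ * π') (τ⁻¹ * τ') c = c := by
  match c with
  | Sum.inl A =>
    have h1 : A.move π = A.move π' := Sum.inl.inj h
    show Sum.inl (A.move (π⁻¹ * π')) = Sum.inl A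
    rw [DSet.move_mul, ← h1, ← DSet.move_mul, inv_mul_cancel, DSet.move_one]
  | Sum.inr k =>
    have h1 : τ k = τ' k := Sum.inr.inj h
    show Sum.inr ((τ⁻¹ * τ') k) = Sum.inr k
    rw [Perm.mul_apply, ← h1, inv_app]

/-- the wires -/
lemma Circuit.card_wires (C : Circuit V d Γ) :
    Nat.card {p : Γ × (DSet V d ⊕ Γ) // C.mult p.1 p.2 ≠ 0} = C.wires := by
  classical
  unfold Circuit.wires
  rw [← Nat.card_sum]
  apply Nat.card_congr
  refine ⟨fun p => match p with
    | ⟨(g, Sum.inl A), h⟩ => Sum.inl ⟨(g, A), h⟩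
    | ⟨(g, Sum.inr k), h⟩ => Sum.inr ⟨(g, k), h⟩, fun q => match q with
    | Sum.inl ⟨(g, A), h⟩ => ⟨(g, Sum.inl A), h⟩
    | Sum.inr ⟨(g, k), h⟩ => ⟨(g, Sum.inr k), h⟩, ?_, ?_⟩
  · rintro ⟨⟨g, A | k⟩, h⟩ <;> rfl
  · rintro (⟨⟨g, A⟩, h⟩ | ⟨⟨g, k⟩, h⟩) <;> rfl

lemma Circuit.index_stab2_le {C : Circuit V d Γ} {g : Γ} {c : DSet V d ⊕ Γ}
    (hc : C.mult g c ≠ 0) : (C.stab2 g c).index ≤ C.wires * C.aut.index := by
  classical
  rw [← C.card_wires]
  have hC : ∀ π : C.aut, ∃ τ, C.IsAut π.1 τ := fun π => π.2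
  choose τ hτ using hC
  have hmu : ∀ k : C.aut, C.mult (τ k g) (imove k.1 (τ k) c) ≠ 0 := by
    intro k
    rw [Circuit.mult_imove (hτ k)]
    exact hc
  apply index_le_of_map C.aut (C.stab2 g c) ((C.stab2_le_stab g c).trans (C.stab_le_aut g))
    (fun k => ⟨(τ k g, imove k.1 (τ k) c), hmu k⟩)
  intro k k' h
  have h1 : τ k g = τ k' g := congrArg (fun p => p.1.1) h
  have h2 : imove k.1 (τ k) c = imove k'.1 (τ k') c := congrArg (fun p => p.1.2) h
  refine ⟨(τ k)⁻¹ * τ k', (hτ k).inv.mul (hτ k'), ?_, imove_inv_mul h2⟩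
  rw [Perm.mul_apply, ← h1, inv_app]

lemma Circuit.gsp_subset (C : Circuit V d Γ) (g : Γ) (c : DSet V d ⊕ Γ) :
    C.gsp g ⊆ sp (C.stab2 g c) := sp_mono (C.stab2_le_stab g c)

lemma Circuit.isup_subset (C : Circuit V d Γ) (g : Γ) (c : DSet V d ⊕ Γ)
    (h1 : ∀ π : Perm V, sign π = 1 → (∀ x ∈ sp (C.stab2 g c), π x = x) → π ∈ C.stab2 g c)
    (h2 : (sp (C.stab2 g c)).card + d < Fintype.card V)
    (h3 : (sp (C.stab2 g c)).card + 2 < Fintype.card V) :
    C.isup c ⊆ sp (C.stab2 g c) := by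
  classical
  match c with
  | Sum.inr h => exact sp_mono (C.stab2_le_stab' g h)
  | Sum.inl A =>
    intro x hx
    have hx : x ∈ A.1 := hx
    by_contra hxs
    set S := sp (C.stab2 g (Sum.inl A)) with hS
    obtain ⟨y, hy⟩ : ∃ y, y ∉ S ∪ A.1 := by
      by_contra hcon
      push Not at hcon
      have h4 : (Finset.univ : Finset V) ⊆ S ∪ A.1 := fun x _ => hcon x
      have h5 := (Finset.card_le_card h4).trans (Finset.card_union_le _ _)
      rw [Finset.card_univ, A.2] at h5
      omega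
    rw [Finset.mem_union] at hy
    push Not at hy
    obtain ⟨z, hz⟩ : ∃ z, z ∉ S ∪ {x, y} := by
      by_contra hcon
      push Not at hcon
      have h4 : (Finset.univ : Finset V) ⊆ S ∪ {x, y} := fun x _ => hcon x
      have h5 := (Finset.card_le_card h4).trans (Finset.card_union_le _ _)
      have h6 := Finset.card_le_two (a := x) (b := y)
      rw [Finset.card_univ] at h5
      omega
    rw [Finset.mem_union, Finset.mem_insert, Finset.mem_singleton] at hz
    push Not at hz
    obtain ⟨hzS, hzx, hzy⟩ := hz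
    have hxy : x ≠ y := by
      rintro rfl
      exact hy.2 hx
    have hmem := h1 (swap y z * swap x z) (by
      rw [Perm.sign_mul, Perm.sign_swap (Ne.symm hzy), Perm.sign_swap (Ne.symm hzx)]
      rfl) (by
      intro w hw
      have w1 : w ≠ x := by rintro rfl; exact hxs hw
      have w2 : w ≠ y := by rintro rfl; exact hy.1 hw
      have w3 : w ≠ z := by rintro rfl; exact hzS hw
      rw [Perm.mul_apply, swap_apply_of_ne_of_ne w1 w3, swap_apply_of_ne_of_ne w2 w3])
    obtain ⟨τ, -, -, hτ⟩ := hmem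
    have h7 : A.move (swap y z * swap x z) = A := Sum.inl.inj hτ
    have h8 : (swap y z * swap x z) x ∈ (A.move (swap y z * swap x z)).1 :=
      Finset.mem_map_of_mem (swap y z * swap x z).toEmbedding hx
    rw [h7, Perm.mul_apply, swap_apply_left, swap_apply_right] at h8
    exact hy.2 h8

/-- few wires -/
theorem Circuit.good_of_wires (C : Circuit V d Γ) {b r s : ℕ}
    (hs : max 1 C.wires * (Fintype.card V).factorial ≤ s * C.numSym)
    (hb : s < b.factorial)
    (h3 : s * 3 ^ (2 * b) < (Fintype.card V).choose (Fintype.card V / 2))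
    (h : s * 2 ^ (2 * b) < (Fintype.card V).choose r) (hr : 2 * r ≤ Fintype.card V)
    (hn : 4 ≤ Fintype.card V) (hd : 2 * d ≤ Fintype.card V) :
    C.Good r ∧ (C.gsp C.out).card < r := by
  have hns : 0 < C.numSym := by
    have h1 := C.index_aut_mul
    have h2 := Nat.factorial_pos (Fintype.card V)
    rcases Nat.eq_zero_or_pos C.numSym with h0 | h0
    · rw [h0, mul_zero] at h1
      omega
    · exact h0
  have hle : max 1 C.wires * C.aut.index ≤ s := by
    rw [← C.index_aut_mul, ← mul_assoc] at hs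
    exact Nat.le_of_mul_le_mul_right hs hns
  have hsp : ∀ G : Subgroup (Perm V), G.index ≤ s →
      (sp G).card < r ∧ ∀ π : Perm V, sign π = 1 → (∀ x ∈ sp G, π x = x) → π ∈ G := by
    intro G hG
    exact sp_bound2 (lt_of_le_of_lt hG hb) (lt_of_le_of_lt (Nat.mul_le_mul_right _ hG) h3)
      (lt_of_le_of_lt (Nat.mul_le_mul_right _ hG) h) hr (by omega)
  constructor
  · intro g c hc
    have hidx : (C.stab2 g c).index ≤ s := by
      refine (Circuit.index_stab2_le hc).trans (le_trans ?_ hle)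
      exact Nat.mul_le_mul_right _ (le_max_right _ _)
    obtain ⟨h4, h5⟩ := hsp _ hidx
    have hidx' : (C.stab g).index ≤ s := by
      refine le_trans ?_ hidx
      apply Nat.le_of_dvd
      · exact Nat.pos_of_ne_zero Subgroup.index_ne_zero_of_finite
      · exact Subgroup.index_dvd_of_le (C.stab2_le_stab g c)
    refine ⟨?_, (hsp _ hidx').2⟩
    refine lt_of_le_of_lt (Finset.card_le_card ?_) h4
    apply Finset.union_subset (C.gsp_subset g c)
    exact C.isup_subset g c h5 (by omega) (by omega)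
  · have h6 : (C.stab C.out).index ≤ s := by
      rw [C.stab_out_eq]
      refine le_trans ?_ hle
      exact Nat.le_mul_of_pos_left _ (by omega)
    exact (hsp _ h6).1

end circuit

end Pool.Agent.SymSC
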