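import Mathlib
import Pool.Agent.Lib.MP_8fffab_lc_SymB.Wires

/-!
# The sets meeting a hidden set evenly cover iff the hidden set is even
-/

namespace Pool.Agent.SymSC

set_option linter.unusedSectionVars false

open Equiv Equiv.Perm

variable {V : Type} [Fintype V] [DecidableEq V] {d : ℕ}

lemma cover_aux (hd : Even d) (W : Finset V) : ∀ (M : ℕ) (X : Finset V), X.card = M * d →
    Even (X ∩ W).card → ∃ T : Finset (DSet V d), T.card ≤ M ∧
      (∀ A ∈ T, Even (A.1 ∩ W).card) ∧ ∀ v ∈ X, ∃ A ∈ T, v ∈ A.1 := by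
  classical
  intro M
  induction M with
  | zero =>
    intro X hX _
    refine ⟨∅, le_rfl, fun A hA => absurd hA (Finset.notMem_empty _), ?_⟩
    intro v hv
    rw [zero_mul, Finset.card_eq_zero] at hX
    rw [hX] at hv
    exact absurd hv (Finset.notMem_empty _)
  | succ M ih =>
    intro X hX hW
    have hdX : d ≤ X.card := by
      rw [hX, Nat.succ_mul]
      omega
    obtain ⟨A, hAX, hAd, hAW⟩ : ∃ A : Finset V, A ⊆ X ∧ A.card = d ∧ Even (A ∩ W).card := by
      by_cases hc : d ≤ (X ∩ W).card
      · obtain ⟨A, hA1, hA2⟩ := Finset.exists_subset_card_eq hc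
        refine ⟨A, hA1.trans Finset.inter_subset_left, hA2, ?_⟩
        have : A ∩ W = A := Finset.inter_eq_left.2 (hA1.trans Finset.inter_subset_right)
        rw [this, hA2]
        exact hd
      · push Not at hc
        obtain ⟨A, hA1, hA2, hA3⟩ := Finset.exists_subsuperset_card_eq
          (Finset.inter_subset_left (s₁ := X) (s₂ := W)) hc.le hdX
        refine ⟨A, hA2, hA3, ?_⟩
        have : A ∩ W = X ∩ W := by
          apply Finset.Subset.antisymm
          · exact Finset.inter_subset_inter_right hA2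
          · exact Finset.subset_inter hA1 Finset.inter_subset_right
        rw [this]
        exact hW
    have h1 : (X \ A).card = M * d := by
      rw [Finset.card_sdiff_of_subset hAX, hX, hAd, Nat.succ_mul]
      omega
    have h2 : Even ((X \ A) ∩ W).card := by
      have e1 : ((X \ A) ∩ W) = (X ∩ W) \ (A ∩ W) := by
        ext x
        simp only [Finset.mem_inter, Finset.mem_sdiff]
        tauto
      have e2 : A ∩ W ⊆ X ∩ W := Finset.inter_subset_inter_right hAX
      rw [e1, Finset.card_sdiff_of_subset e2]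
      rw [Nat.even_sub (Finset.card_le_card e2)]
      exact ⟨fun _ => hAW, fun _ => hW⟩
    obtain ⟨T, hT1, hT2, hT3⟩ := ih (X \ A) h1 h2
    refine ⟨insert ⟨A, hAd⟩ T, ?_, ?_, ?_⟩
    · exact (Finset.card_insert_le _ _).trans (by omega)
    · intro B hB
      rcases Finset.mem_insert.1 hB with rfl | hB
      · exact hAW
      · exact hT2 B hB
    · intro v hv
      by_cases hvA : v ∈ A
      · exact ⟨⟨A, hAd⟩, Finset.mem_insert_self _ _, hvA⟩
      · obtain ⟨B, hB, hvB⟩ := hT3 v (Finset.mem_sdiff.2 ⟨hv, hvA⟩)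
        exact ⟨B, Finset.mem_insert_of_mem hB, hvB⟩

lemma even_of_cover {M : ℕ} (hV : Fintype.card V = M * d) (W : Finset V)
    (T : Finset (DSet V d)) (hT : T.card ≤ M) (hcov : ∀ v : V, ∃ A ∈ T, v ∈ A.1)
    (hev : ∀ A ∈ T, Even (A.1 ∩ W).card) : Even W.card := by
  classical
  have h1 : W.card ≤ ∑ A ∈ T, (A.1 ∩ W).card := by
    refine le_trans (Finset.card_le_card ?_) Finset.card_biUnion_le
    intro v hv
    obtain ⟨A, hA, hvA⟩ := hcov v
    exact Finset.mem_biUnion.2 ⟨A, hA, Finset.mem_inter.2 ⟨hvA, hv⟩⟩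
  have h2 : Wᶜ.card ≤ ∑ A ∈ T, (A.1 \ W).card := by
    refine le_trans (Finset.card_le_card ?_) Finset.card_biUnion_le
    intro v hv
    obtain ⟨A, hA, hvA⟩ := hcov v
    exact Finset.mem_biUnion.2 ⟨A, hA, Finset.mem_sdiff.2 ⟨hvA, Finset.mem_compl.1 hv⟩⟩
  have h3 : ∑ A ∈ T, (A.1 ∩ W).card + ∑ A ∈ T, (A.1 \ W).card = T.card * d := by
    rw [← Finset.sum_add_distrib, Finset.sum_congr rfl (g := fun _ => d)]
    · rw [Finset.sum_const, smul_eq_mul]
    · intro A _
      rw [add_comm, Finset.card_sdiff_add_card_inter, A.2]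
  have h4 : T.card * d ≤ M * d := Nat.mul_le_mul_right _ hT
  have h5 := Finset.card_compl_add_card W
  have h6 : W.card = ∑ A ∈ T, (A.1 ∩ W).card := by omega
  rw [h6]
  exact Finset.even_sum _ (fun A hA => hev A hA)

theorem hasCover_hide {M : ℕ} (hd : Even d) (hV : Fintype.card V = M * d) (W : Finset V) :
    HasCover {A : DSet V d | hide d W A = true} M ↔ Even W.card := by
  constructor
  · rintro ⟨T, h1, h2, h3⟩
    apply even_of_cover hV W T h1 h3
    intro A hA
    have := h2 A hA
    exact of_decide_eq_true this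
  · intro hW
    obtain ⟨T, h1, h2, h3⟩ := cover_aux hd W M Finset.univ (by rw [Finset.card_univ, hV])
      (by rw [Finset.univ_inter]; exact hW)
    refine ⟨T, h1, ?_, fun v => h3 v (Finset.mem_univ _)⟩
    intro A hA
    exact decide_eq_true (h2 A hA)

/-- few permutations map the set `B` into a set with at most half of the points -/
lemma count_perm (S : Finset V) (h : 2 * S.card ≤ Fintype.card V) (B : Finset V) :
    2 ^ B.card * (Finset.univ.filter (fun π : Perm V => ∀ x ∈ B, π x ∈ S)).card ≤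
      (Fintype.card V).factorial := by
  classical
  obtain ⟨σ⟩ : Nonempty ({x // x ∈ S} ↪ {x // x ∈ Sᶜ}) :=
    Function.Embedding.nonempty_of_card_le (by
      rw [Fintype.card_coe, Fintype.card_coe, Finset.card_compl]
      omega)
  induction B using Finset.induction_on with
  | empty =>
    rw [Finset.card_empty, pow_zero, one_mul, ← Fintype.card_perm, ← Finset.card_univ]
    exact Finset.card_le_card (Finset.filter_subset _ _)
  | insert b B hb ih =>
    rw [Finset.card_insert_of_notMem hb, pow_succ, mul_assoc]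
    refine le_trans (Nat.mul_le_mul_left _ ?_) ih
    set P : Finset (Perm V) := Finset.univ.filter (fun π : Perm V => ∀ x ∈ insert b B, π x ∈ S)
      with hP
    set P' : Finset (Perm V) := Finset.univ.filter (fun π : Perm V => ∀ x ∈ B, π x ∈ S)
      with hP'
    have hPm : ∀ π, π ∈ P ↔ π b ∈ S ∧ ∀ x ∈ B, π x ∈ S := by
      intro π
      rw [hP, Finset.mem_filter]
      simp only [Finset.mem_univ, true_and, Finset.forall_mem_insert]
    have hP'm : ∀ π, π ∈ P' ↔ ∀ x ∈ B, π x ∈ S := by
      intro π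
      rw [hP', Finset.mem_filter]
      simp only [Finset.mem_univ, true_and]
    let F : Perm V → Perm V := fun π =>
      if hπ : π b ∈ S then swap (π b) (σ ⟨π b, hπ⟩) * π else π
    have hF : ∀ π (hπ : π b ∈ S), F π = swap (π b) (σ ⟨π b, hπ⟩) * π := by
      intro π hπ
      simp only [F, hπ, dif_pos]
    have hFb : ∀ π (hπ : π b ∈ S), F π b = σ ⟨π b, hπ⟩ := by
      intro π hπ
      rw [hF π hπ, Perm.mul_apply, swap_apply_left]
    have h1 : P.card ≤ (P' \ P).card := by
      apply Finset.card_le_card_of_injOn F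
      · intro π hπ
        rw [Finset.mem_coe, hPm] at hπ
        rw [Finset.mem_coe, Finset.mem_sdiff, hP'm, hPm]
        have h2 : F π b ∉ S := by
          rw [hFb π hπ.1]
          exact Finset.mem_compl.1 (σ _).2
        refine ⟨?_, fun h => h2 h.1⟩
        intro x hx
        have h3 := hπ.2 x hx
        rw [hF π hπ.1, Perm.mul_apply, swap_apply_of_ne_of_ne]
        · exact h3
        · intro h4
          have : x = b := π.injective h4
          exact hb (this ▸ hx)
        · intro h4
          have h5 := Finset.mem_compl.1 (σ ⟨π b, hπ.1⟩).2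
          exact h5 (h4 ▸ h3)
      · intro π hπ ρ hρ he
        rw [Finset.mem_coe, hPm] at hπ hρ
        have e1 : F π b = F ρ b := by rw [he]
        rw [hFb π hπ.1, hFb ρ hρ.1] at e1
        have e2 : π b = ρ b := congrArg Subtype.val (σ.injective (Subtype.ext e1))
        rw [hF π hπ.1, hF ρ hρ.1] at he
        have e3 : (swap (π b) (σ ⟨π b, hπ.1⟩) : Perm V) = swap (ρ b) (σ ⟨ρ b, hρ.1⟩) := by
          congr 1
        rw [e3] at he
        exact mul_left_cancel he
    have hsub : P ⊆ P' := by
      intro π hπ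
      rw [hPm] at hπ
      rw [hP'm]
      exact hπ.2
    have h6 := Finset.card_sdiff_add_card_eq_card hsub
    omega

/-- twice an alternating sum of zeros and ones is at most the number of subsets -/
lemma alt_sum_le {B : Finset V} (hB : B.Nonempty) (f : Finset V → Bool) :
    2 * ∑ Z ∈ B.powerset, (-1 : ℤ) ^ Z.card * ((f Z).toNat : ℤ) ≤ 2 ^ B.card := by
  have h0 : ∑ Z ∈ B.powerset, (-1 : ℤ) ^ Z.card = 0 := by
    rw [Finset.sum_powerset_neg_one_pow_card, if_neg hB.ne_empty]
  have h1 : 2 * ∑ Z ∈ B.powerset, (-1 : ℤ) ^ Z.card * ((f Z).toNat : ℤ) =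
      ∑ Z ∈ B.powerset, (-1 : ℤ) ^ Z.card * (2 * ((f Z).toNat : ℤ) - 1) +
        ∑ Z ∈ B.powerset, (-1 : ℤ) ^ Z.card := by
    rw [Finset.mul_sum, ← Finset.sum_add_distrib]
    apply Finset.sum_congr rfl
    intro Z _
    ring
  rw [h1, h0, add_zero]
  have h2 : ∑ Z ∈ B.powerset, (-1 : ℤ) ^ Z.card * (2 * ((f Z).toNat : ℤ) - 1) ≤
      ∑ _Z ∈ B.powerset, (1 : ℤ) := by
    apply Finset.sum_le_sum
    intro Z _
    rcases neg_one_pow_eq_or ℤ Z.card with h | h <;> rw [h] <;> cases f Z <;> simp
  refine h2.trans ?_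
  rw [Finset.sum_const, Finset.card_powerset]
  simp

/-- an alternating sum vanishes if one point does not matter -/
lemma alt_sum_zero {B : Finset V} {x : V} (hx : x ∈ B) (f : Finset V → Bool)
    (hf : ∀ Z ⊆ B, x ∉ Z → f (insert x Z) = f Z) :
    ∑ Z ∈ B.powerset, (-1 : ℤ) ^ Z.card * ((f Z).toNat : ℤ) = 0 := by
  classical
  have hB : B = insert x (B.erase x) := (Finset.insert_erase hx).symm
  rw [hB, Finset.sum_powerset_insert (Finset.notMem_erase x B), ← Finset.sum_add_distrib]
  apply Finset.sum_eq_zero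
  intro Z hZ
  rw [Finset.mem_powerset] at hZ
  have hxZ : x ∉ Z := fun h => Finset.notMem_erase x B (hZ h)
  rw [hf Z (hZ.trans (Finset.erase_subset _ _)) hxZ, Finset.card_insert_of_notMem hxZ, pow_succ]
  ring

end Pool.Agent.SymSC
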