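import Mathlib
import Pool.Agent.Lib.MP_8fffab_lc_Sym.Induct
import Pool.Agent.Lib.MP_8fffab_lc_SymB.Defs

/-!
# The subset dynamic program is a symmetric circuit with AND and OR gates
-/

namespace Pool.Agent.SymSC

set_option linter.unusedSectionVars false

open Equiv Equiv.Perm

/-- an OR gate for every number `i ≤ k` and set `X` (can `i` sets cover `X`?) and an AND gate for
every `j < k`, set `X` and variable `A` (is `A` present and can `j` sets cover `X \ A`?) -/
abbrev DpGate (V : Type) (d k : ℕ) : Type :=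
  (Fin (k + 1) × Finset V) ⊕ (Fin k × Finset V × DSet V d)

/-- the subset dynamic program -/
noncomputable def dpCircuit (V : Type) [Fintype V] [DecidableEq V] (d k : ℕ) :
    Circuit V d (DpGate V d k) where
  inVar g A := match g with
    | Sum.inl _ => 0
    | Sum.inr (_, _, B) => if A = B then 1 else 0
  inGate g h := match g, h with
    | Sum.inl (i, X), Sum.inr (j, Y, _) => if i.1 = j.1 + 1 ∧ X = Y ∧ X ≠ ∅ then 1 else 0
    | Sum.inr (j, X, A), Sum.inl (i, Y) => if i.1 = j.1 ∧ Y = X \ A.1 then 1 else 0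
    | _, _ => 0
  op g t := match g with
    | Sum.inl (_, X) => if X = ∅ then decide (t = 0) else decide (t ≠ 0)
    | Sum.inr _ => decide (t = 2)
  rank g := match g with
    | Sum.inl (i, _) => 2 * i.1
    | Sum.inr (j, _, _) => 2 * j.1 + 1
  acyclic {g h} hw := by
    match g, h with
    | Sum.inl (i, X), Sum.inr (j, Y, A) =>
      have : i.1 = j.1 + 1 ∧ X = Y ∧ X ≠ ∅ := by
        by_contra hc
        exact hw (if_neg hc)
      show 2 * j.1 + 1 < 2 * i.1
      omega
    | Sum.inr (j, X, A), Sum.inl (i, Y) =>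
      have : i.1 = j.1 ∧ Y = X \ A.1 := by
        by_contra hc
        exact hw (if_neg hc)
      show 2 * i.1 < 2 * j.1 + 1
      omega
    | Sum.inl _, Sum.inl _ => exact absurd rfl hw
    | Sum.inr _, Sum.inr _ => exact absurd rfl hw
  out := Sum.inl (Fin.last k, Finset.univ)

section
variable {V : Type} [Fintype V] [DecidableEq V] {d k : ℕ}

/-- `i` sets with `x A = true` cover `X` -/
def Cov (x : DSet V d → Bool) (i : ℕ) (X : Finset V) : Prop :=
  ∃ T : Finset (DSet V d), T.card ≤ i ∧ (∀ A ∈ T, x A = true) ∧ ∀ v ∈ X, ∃ A ∈ T, v ∈ A.1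

lemma cov_zero (x : DSet V d → Bool) (X : Finset V) : Cov x 0 X ↔ X = ∅ := by
  constructor
  · rintro ⟨T, h1, -, h3⟩
    have hT : T = ∅ := Finset.card_eq_zero.1 (by omega)
    rw [Finset.eq_empty_iff_forall_notMem]
    intro v hv
    obtain ⟨A, hA, -⟩ := h3 v hv
    rw [hT] at hA
    exact absurd hA (Finset.notMem_empty _)
  · rintro rfl
    exact ⟨∅, le_rfl, fun A hA => absurd hA (Finset.notMem_empty _),
      fun v hv => absurd hv (Finset.notMem_empty _)⟩

lemma cov_succ (x : DSet V d → Bool) (i : ℕ) (X : Finset V) :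
    Cov x (i + 1) X ↔ X = ∅ ∨ ∃ A : DSet V d, x A = true ∧ Cov x i (X \ A.1) := by
  classical
  constructor
  · rintro ⟨T, h1, h2, h3⟩
    by_cases hX : X = ∅
    · exact Or.inl hX
    right
    obtain ⟨v, hv⟩ := Finset.nonempty_iff_ne_empty.2 hX
    obtain ⟨A, hA, -⟩ := h3 v hv
    refine ⟨A, h2 A hA, T.erase A, ?_, ?_, ?_⟩
    · rw [Finset.card_erase_of_mem hA]
      omega
    · intro B hB
      exact h2 B (Finset.mem_of_mem_erase hB)
    · intro w hw
      rw [Finset.mem_sdiff] at hw
      obtain ⟨B, hB, hwB⟩ := h3 w hw.1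
      refine ⟨B, Finset.mem_erase.2 ⟨?_, hB⟩, hwB⟩
      rintro rfl
      exact hw.2 hwB
  · rintro (rfl | ⟨A, hA, T, h1, h2, h3⟩)
    · exact ⟨∅, Nat.zero_le _, fun A hA => absurd hA (Finset.notMem_empty _),
        fun v hv => absurd hv (Finset.notMem_empty _)⟩
    · refine ⟨insert A T, (Finset.card_insert_le _ _).trans (by omega), ?_, ?_⟩
      · intro B hB
        rcases Finset.mem_insert.1 hB with rfl | hB
        · exact hA
        · exact h2 B hB
      · intro v hv
        by_cases hvA : v ∈ A.1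
        · exact ⟨A, Finset.mem_insert_self _ _, hvA⟩
        · obtain ⟨B, hB, hvB⟩ := h3 v (Finset.mem_sdiff.2 ⟨hv, hvA⟩)
          exact ⟨B, Finset.mem_insert_of_mem hB, hvB⟩

lemma dp_val_and (x : DSet V d → Bool) (j : Fin k) (X : Finset V) (A : DSet V d) :
    (dpCircuit V d k).val x (Sum.inr (j, X, A)) = true ↔
      x A = true ∧ (dpCircuit V d k).val x (Sum.inl (j.castSucc, X \ A.1)) = true := by
  rw [Circuit.val_eq]
  have h1 : ∑ B : DSet V d, (dpCircuit V d k).inVar (Sum.inr (j, X, A)) B * (x B).toNat =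
      (x A).toNat := by
    rw [Finset.sum_eq_single A]
    · show (if A = A then 1 else 0) * (x A).toNat = _
      rw [if_pos rfl, one_mul]
    · intro B _ hB
      show (if B = A then 1 else 0) * (x B).toNat = _
      rw [if_neg hB, zero_mul]
    · intro h
      exact absurd (Finset.mem_univ _) h
  have h2 : ∑ h : DpGate V d k, (dpCircuit V d k).inGate (Sum.inr (j, X, A)) h *
      ((dpCircuit V d k).val x h).toNat =
      ((dpCircuit V d k).val x (Sum.inl (j.castSucc, X \ A.1))).toNat := by
    rw [Finset.sum_eq_single (Sum.inl (j.castSucc, X \ A.1))]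
    · show (if j.castSucc.1 = j.1 ∧ X \ A.1 = X \ A.1 then 1 else 0) * _ = _
      rw [if_pos ⟨rfl, rfl⟩, one_mul]
    · intro h _ hne
      match h with
      | Sum.inr _ => exact zero_mul _
      | Sum.inl (i, Y) =>
        show (if i.1 = j.1 ∧ Y = X \ A.1 then 1 else 0) * _ = 0
        rw [if_neg, zero_mul]
        rintro ⟨e1, e2⟩
        apply hne
        rw [e2]
        congr 2
        exact Fin.ext e1
    · intro h
      exact absurd (Finset.mem_univ _) h
  rw [h1, h2]
  show decide (_ = 2) = true ↔ _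
  rw [decide_eq_true_iff]
  cases x A <;> cases (dpCircuit V d k).val x (Sum.inl (j.castSucc, X \ A.1)) <;> simp

lemma dp_val_or (x : DSet V d → Bool) (i : Fin (k + 1)) (X : Finset V) :
    (dpCircuit V d k).val x (Sum.inl (i, X)) = true ↔
      X = ∅ ∨ ∃ (j : Fin k) (A : DSet V d), i.1 = j.1 + 1 ∧
        (dpCircuit V d k).val x (Sum.inr (j, X, A)) = true := by
  rw [Circuit.val_eq]
  have h1 : ∑ B : DSet V d, (dpCircuit V d k).inVar (Sum.inl (i, X)) B * (x B).toNat = 0 := by
    apply Finset.sum_eq_zero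
    intro B _
    exact zero_mul _
  rw [h1, zero_add]
  by_cases hX : X = ∅
  · have h2 : ∑ h : DpGate V d k, (dpCircuit V d k).inGate (Sum.inl (i, X)) h *
        ((dpCircuit V d k).val x h).toNat = 0 := by
      apply Finset.sum_eq_zero
      intro h _
      match h with
      | Sum.inl _ => exact zero_mul _
      | Sum.inr (j, Y, A) =>
        show (if i.1 = j.1 + 1 ∧ X = Y ∧ X ≠ ∅ then 1 else 0) * _ = 0
        rw [if_neg (fun h => h.2.2 hX), zero_mul]
    rw [h2]
    show (if X = ∅ then decide (0 = 0) else decide (0 ≠ 0)) = true ↔ _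
    rw [if_pos hX]
    simp [hX]
  · show (if X = ∅ then _ else decide (_ ≠ 0)) = true ↔ _
    rw [if_neg hX, decide_eq_true_iff, Ne, Finset.sum_eq_zero_iff]
    push Not
    constructor
    · rintro ⟨h, -, hne⟩
      right
      match h with
      | Sum.inl _ => exact absurd (zero_mul _) hne
      | Sum.inr (j, Y, A) =>
        have hne' : (if i.1 = j.1 + 1 ∧ X = Y ∧ X ≠ ∅ then 1 else 0) *
          ((dpCircuit V d k).val x (Sum.inr (j, Y, A))).toNat ≠ 0 := hne
        by_cases hc : i.1 = j.1 + 1 ∧ X = Y ∧ X ≠ ∅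
        · rw [if_pos hc, one_mul] at hne'
          obtain ⟨e1, rfl, -⟩ := hc
          refine ⟨j, A, e1, ?_⟩
          revert hne'
          cases (dpCircuit V d k).val x (Sum.inr (j, X, A)) <;> simp
        · rw [if_neg hc, zero_mul] at hne'
          exact absurd rfl hne'
    · rintro (h | ⟨j, A, e1, hv⟩)
      · exact absurd h hX
      · refine ⟨Sum.inr (j, X, A), Finset.mem_univ _, ?_⟩
        show (if i.1 = j.1 + 1 ∧ X = X ∧ X ≠ ∅ then 1 else 0) *
            ((dpCircuit V d k).val x (Sum.inr (j, X, A))).toNat ≠ 0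
        rw [if_pos ⟨e1, rfl, hX⟩, hv]
        simp

lemma dp_val (x : DSet V d → Bool) (i : ℕ) (hi : i < k + 1) (X : Finset V) :
    (dpCircuit V d k).val x (Sum.inl (⟨i, hi⟩, X)) = true ↔ Cov x i X := by
  induction i generalizing X with
  | zero =>
    rw [dp_val_or, cov_zero]
    constructor
    · rintro (h | ⟨j, A, h, -⟩)
      · exact h
      · exact absurd h (Nat.succ_ne_zero _).symm
    · exact Or.inl
  | succ i ih =>
    rw [dp_val_or, cov_succ]
    apply or_congr Iff.rfl
    constructor
    · rintro ⟨j, A, h1, h2⟩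
      rw [dp_val_and] at h2
      refine ⟨A, h2.1, ?_⟩
      have h3 : i = j.1 := by
        have : i + 1 = j.1 + 1 := h1
        omega
      have h4 : (⟨i, by omega⟩ : Fin (k + 1)) = j.castSucc := Fin.ext h3
      rw [← ih (by omega), h4]
      exact h2.2
    · rintro ⟨A, h1, h2⟩
      refine ⟨⟨i, by omega⟩, A, rfl, ?_⟩
      rw [dp_val_and]
      refine ⟨h1, ?_⟩
      exact (ih (by omega) (X \ A.1)).2 h2

/-- the permutation of the gates -/
def dpAut (d k : ℕ) (π : Perm V) : Perm (DpGate V d k) :=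
  Equiv.sumCongr (Equiv.prodCongr (Equiv.refl _) (Equiv.finsetCongr π))
    (Equiv.prodCongr (Equiv.refl _) (Equiv.prodCongr (Equiv.finsetCongr π) (setPerm d π)))

lemma dp_isAut (π : Perm V) : (dpCircuit V d k).IsAut π (dpAut d k π) where
  op_eq g := by
    match g with
    | Sum.inl (i, X) =>
      funext t
      show (if X.map π.toEmbedding = ∅ then decide (t = 0) else decide (t ≠ 0)) =
        if X = ∅ then decide (t = 0) else decide (t ≠ 0)
      simp only [Finset.map_eq_empty]
    | Sum.inr _ => rfl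
  var_eq g A := by
    match g with
    | Sum.inl _ => rfl
    | Sum.inr (j, X, B) =>
      show (if A.move π = B.move π then 1 else 0) = if A = B then 1 else 0
      have h1 : A.move π = B.move π ↔ A = B := (setPerm d π).injective.eq_iff
      simp only [h1]
  gate_eq g h := by
    match g, h with
    | Sum.inl (i, X), Sum.inr (j, Y, A) =>
      show (if i.1 = j.1 + 1 ∧ X.map π.toEmbedding = Y.map π.toEmbedding ∧
          X.map π.toEmbedding ≠ ∅ then 1 else 0) =
        if i.1 = j.1 + 1 ∧ X = Y ∧ X ≠ ∅ then 1 else 0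
      simp only [Finset.map_inj, ne_eq, Finset.map_eq_empty]
    | Sum.inr (j, X, A), Sum.inl (i, Y) =>
      show (if i.1 = j.1 ∧ Y.map π.toEmbedding = X.map π.toEmbedding \ A.1.map π.toEmbedding
        then 1 else 0) = if i.1 = j.1 ∧ Y = X \ A.1 then 1 else 0
      have h1 : X.map π.toEmbedding \ A.1.map π.toEmbedding = (X \ A.1).map π.toEmbedding := by
        ext v
        simp only [Finset.mem_sdiff, Finset.mem_map_equiv]
      rw [h1]
      simp only [Finset.map_inj]
    | Sum.inl _, Sum.inl _ => rfl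
    | Sum.inr _, Sum.inr _ => rfl
  out_eq := by
    show Sum.inl (Fin.last k, (Finset.univ : Finset V).map π.toEmbedding) =
      Sum.inl (Fin.last k, Finset.univ)
    rw [Finset.map_univ_equiv]

lemma dp_numSym : (dpCircuit V d k).numSym = (Fintype.card V).factorial := by
  classical
  unfold Circuit.numSym
  rw [Nat.card_congr (Equiv.subtypeUnivEquiv (fun π => ⟨dpAut d k π, dp_isAut π⟩)),
    Nat.card_eq_fintype_card, Fintype.card_perm]

lemma dp_wires : (dpCircuit V d k).wires ≤
    3 * k * 2 ^ Fintype.card V * (Fintype.card V).choose d := by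
  classical
  have hcard : Nat.card (Fin k × Finset V × DSet V d) =
      k * (2 ^ Fintype.card V * (Fintype.card V).choose d) := by
    rw [Nat.card_eq_fintype_card, Fintype.card_prod, Fintype.card_prod, Fintype.card_fin,
      Fintype.card_finset, Fintype.card_finset_len]
  have h1 : Nat.card {p : DpGate V d k × DSet V d // (dpCircuit V d k).inVar p.1 p.2 ≠ 0} ≤
      Nat.card (Fin k × Finset V × DSet V d) := by
    apply Nat.card_le_card_of_surjective (fun q => (⟨(Sum.inr q, q.2.2), by
      show (if q.2.2 = q.2.2 then 1 else 0) ≠ 0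
      rw [if_pos rfl]
      exact one_ne_zero⟩ :
        {p : DpGate V d k × DSet V d // (dpCircuit V d k).inVar p.1 p.2 ≠ 0}))
    rintro ⟨⟨g, A⟩, h⟩
    match g with
    | Sum.inl _ => exact absurd rfl h
    | Sum.inr (j, X, B) =>
      have hAB : A = B := by
        by_contra hc
        exact h (if_neg hc)
      subst hAB
      exact ⟨(j, X, A), rfl⟩
  have h2 : Nat.card {p : DpGate V d k × DpGate V d k //
      (dpCircuit V d k).inGate p.1 p.2 ≠ 0} ≤
      Nat.card ((Fin k × Finset V × DSet V d) ⊕ (Fin k × Finset V × DSet V d)) := by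
    let F : {p : DpGate V d k × DpGate V d k // (dpCircuit V d k).inGate p.1 p.2 ≠ 0} →
        ((Fin k × Finset V × DSet V d) ⊕ (Fin k × Finset V × DSet V d)) := fun q =>
      match q with
      | ⟨(Sum.inl _, Sum.inr p), _⟩ => Sum.inl p
      | ⟨(Sum.inr p, Sum.inl _), _⟩ => Sum.inr p
      | ⟨(Sum.inl _, Sum.inl _), h⟩ => absurd rfl h
      | ⟨(Sum.inr _, Sum.inr _), h⟩ => absurd rfl h
    apply Nat.card_le_card_of_injective F
    have hor : ∀ (i : Fin (k + 1)) (X : Finset V) (j : Fin k) (Y : Finset V) (A : DSet V d),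
        (dpCircuit V d k).inGate (Sum.inl (i, X)) (Sum.inr (j, Y, A)) ≠ 0 →
          i = j.succ ∧ X = Y := by
      intro i X j Y A hw
      have hc : i.1 = j.1 + 1 ∧ X = Y ∧ X ≠ ∅ := by
        by_contra hc
        exact hw (if_neg hc)
      exact ⟨Fin.ext hc.1, hc.2.1⟩
    have hand : ∀ (i : Fin (k + 1)) (Y : Finset V) (j : Fin k) (X : Finset V) (A : DSet V d),
        (dpCircuit V d k).inGate (Sum.inr (j, X, A)) (Sum.inl (i, Y)) ≠ 0 →
          i = j.castSucc ∧ Y = X \ A.1 := by
      intro i Y j X A hw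
      have hc : i.1 = j.1 ∧ Y = X \ A.1 := by
        by_contra hc
        exact hw (if_neg hc)
      exact ⟨Fin.ext hc.1, hc.2⟩
    rintro ⟨⟨g, h⟩, hw⟩ ⟨⟨g', h'⟩, hw'⟩ he
    match g, h, g', h' with
    | Sum.inl (i, X), Sum.inr (j, Y, A), Sum.inl (i', X'), Sum.inr (j', Y', A') =>
      have e : ((j, Y, A) : Fin k × Finset V × DSet V d) = (j', Y', A') := Sum.inl.inj he
      obtain ⟨rfl, rfl⟩ := hor _ _ _ _ _ hw
      obtain ⟨rfl, rfl⟩ := hor _ _ _ _ _ hw'
      obtain ⟨rfl, e2⟩ := Prod.mk.inj e
      obtain ⟨rfl, rfl⟩ := Prod.mk.inj e2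
      rfl
    | Sum.inr (j, X, A), Sum.inl (i, Y), Sum.inr (j', X', A'), Sum.inl (i', Y') =>
      have e : ((j, X, A) : Fin k × Finset V × DSet V d) = (j', X', A') := Sum.inr.inj he
      obtain ⟨rfl, rfl⟩ := hand _ _ _ _ _ hw
      obtain ⟨rfl, rfl⟩ := hand _ _ _ _ _ hw'
      obtain ⟨rfl, e2⟩ := Prod.mk.inj e
      obtain ⟨rfl, rfl⟩ := Prod.mk.inj e2
      rfl
    | Sum.inl _, Sum.inr _, Sum.inr _, Sum.inl _ => exact absurd he Sum.inl_ne_inr
    | Sum.inr _, Sum.inl _, Sum.inl _, Sum.inr _ => exact absurd he Sum.inr_ne_inl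
    | Sum.inl _, Sum.inl _, _, _ => exact absurd rfl hw
    | Sum.inr _, Sum.inr _, _, _ => exact absurd rfl hw
    | Sum.inl _, Sum.inr _, Sum.inl _, Sum.inl _ => exact absurd rfl hw'
    | Sum.inl _, Sum.inr _, Sum.inr _, Sum.inr _ => exact absurd rfl hw'
    | Sum.inr _, Sum.inl _, Sum.inl _, Sum.inl _ => exact absurd rfl hw'
    | Sum.inr _, Sum.inl _, Sum.inr _, Sum.inr _ => exact absurd rfl hw'
  rw [Nat.card_sum] at h2
  unfold Circuit.wires
  rw [hcard] at h1 h2
  have e : 3 * k * 2 ^ Fintype.card V * (Fintype.card V).choose d =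
      3 * (k * (2 ^ Fintype.card V * (Fintype.card V).choose d)) := by ring
  rw [e]
  omega

lemma dp_fanin_and (j : Fin k) (X : Finset V) (A : DSet V d) :
    (dpCircuit V d k).fanin (Sum.inr (j, X, A)) = 2 := by
  unfold Circuit.fanin
  have f1 : ∑ B : DSet V d, (dpCircuit V d k).inVar (Sum.inr (j, X, A)) B = 1 := by
    rw [Finset.sum_eq_single A]
    · exact if_pos rfl
    · intro B _ hB
      exact if_neg hB
    · intro h
      exact absurd (Finset.mem_univ _) h
  have f2 : ∑ h : DpGate V d k, (dpCircuit V d k).inGate (Sum.inr (j, X, A)) h = 1 := by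
    rw [Finset.sum_eq_single (Sum.inl (j.castSucc, X \ A.1))]
    · exact if_pos ⟨rfl, rfl⟩
    · intro h _ hne
      match h with
      | Sum.inr _ => rfl
      | Sum.inl (i, Y) =>
        show (if i.1 = j.1 ∧ Y = X \ A.1 then 1 else 0) = 0
        rw [if_neg]
        rintro ⟨e1, e2⟩
        apply hne
        rw [e2]
        congr 2
        exact Fin.ext e1
    · intro h
      exact absurd (Finset.mem_univ _) h
  rw [f1, f2]

lemma dp_fanin_or (i : Fin (k + 1)) :
    (dpCircuit V d k).fanin (Sum.inl (i, (∅ : Finset V))) = 0 := by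
  unfold Circuit.fanin
  have f1 : ∑ B : DSet V d, (dpCircuit V d k).inVar (Sum.inl (i, (∅ : Finset V))) B = 0 :=
    Finset.sum_eq_zero (fun _ _ => rfl)
  have f2 : ∑ h : DpGate V d k, (dpCircuit V d k).inGate (Sum.inl (i, (∅ : Finset V))) h = 0 := by
    apply Finset.sum_eq_zero
    intro h _
    match h with
    | Sum.inl _ => rfl
    | Sum.inr (j, Y, A) =>
      show (if i.1 = j.1 + 1 ∧ ∅ = Y ∧ (∅ : Finset V) ≠ ∅ then 1 else 0) = 0
      rw [if_neg (fun h => h.2.2 rfl)]
  rw [f1, f2]

lemma dp_andOr : (dpCircuit V d k).AndOr := by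
  classical
  intro g
  match g with
  | Sum.inl (i, X) =>
    by_cases hX : X = ∅
    · left
      subst hX
      intro t _
      rw [dp_fanin_or]
      show (if (∅ : Finset V) = ∅ then decide (t = 0) else decide (t ≠ 0)) = _
      rw [if_pos rfl]
    · right
      intro t _
      show (if X = ∅ then decide (t = 0) else decide (t ≠ 0)) = _
      rw [if_neg hX]
  | Sum.inr (j, X, A) =>
    left
    intro t _
    rw [dp_fanin_and]
    rfl

lemma countsUpTo_of_andOr {Γ : Type} [Fintype Γ] {C : Circuit V d Γ} (h : C.AndOr) :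
    C.CountsUpTo 1 := by
  intro g t t' h1 h2 h3 h4
  rcases h g with hg | hg
  · rw [hg t (by omega), hg t' (by omega)]
    have a1 : ¬ t = C.fanin g := by omega
    have a2 : ¬ t' = C.fanin g := by omega
    simp [a1, a2]
  · rw [hg t (by omega), hg t' (by omega)]
    have a1 : t ≠ 0 := by omega
    have a2 : t' ≠ 0 := by omega
    simp [a1, a2]

end

/-- the subset dynamic program has at most `3 * k * 2^n * C(n,d)` wires -/
theorem upper_bound2 (n d k : ℕ) :
    HasCircuit n d k 1 (fun _ _ C => C.AndOr ∧ C.CountsUpTo 1 ∧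
      C.wires ≤ 3 * k * 2 ^ n * n.choose d ∧ C.numSym = n.factorial) := by
  classical
  have hout : ∀ F : Set (DSet (Fin n) d), (dpCircuit (Fin n) d k).output F = true ↔
      HasCover F k := by
    intro F
    unfold Circuit.output
    have h1 := dp_val (V := Fin n) (d := d) (k := k) (fun A => decide (A ∈ F)) k (by omega)
      Finset.univ
    have h2 : Cov (fun A => decide (A ∈ F)) k (Finset.univ : Finset (Fin n)) ↔
        HasCover F k := by
      unfold Cov HasCover
      simp only [decide_eq_true_iff, Finset.mem_univ, true_implies]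
    exact h1.trans h2
  refine ⟨Unit, inferInstance, fun _ => 1, fun _ => _, fun _ => inferInstance,
    fun _ => dpCircuit (Fin n) d k, fun _ => zero_le_one, by simp,
    fun _ => ⟨dp_andOr, countsUpTo_of_andOr dp_andOr, ?_, ?_⟩, ?_, ?_⟩
  · have := dp_wires (V := Fin n) (d := d) (k := k)
    rwa [Fintype.card_fin] at this
  · rw [dp_numSym, Fintype.card_fin]
  · intro F hF
    have : (dpCircuit (Fin n) d k).output F = true := (hout F).2 hF
    simp [this]
  · intro F hF
    have : ¬ ((dpCircuit (Fin n) d k).output F = true) := fun h => hF ((hout F).1 h)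
    simp [this]

end Pool.Agent.SymSC
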