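import Mathlib
import Pool.Agent.Lib.MP_8fffab_lc_SymB.Cover

/-!
# The lower bound for the number of wires, finite form
-/

namespace Pool.Agent.SymSC

set_option linter.unusedSectionVars false

open Equiv Equiv.Perm

lemma output_hide {n d : ℕ} {Γ : Type} [Fintype Γ] (C : Circuit (Fin n) d Γ)
    (Y : Finset (Fin n)) :
    C.output {A | hide d Y A = true} = C.val (hide d Y) C.out := by
  unfold Circuit.output
  congr 1
  funext A
  cases hx : hide d Y A
  · exact @decide_eq_false _ (Classical.propDecidable _) (by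
      show ¬ (hide d Y A = true)
      rw [hx]
      exact Bool.false_ne_true)
  · exact @decide_eq_true _ (Classical.propDecidable _) hx

/-- the alternating sum over the subsets of `B`, summed over all placements -/
lemma Circuit.sum_alt {V : Type} [Fintype V] [DecidableEq V] {d : ℕ} {Γ : Type} [Fintype Γ]
    {C : Circuit V d Γ} {r θ : ℕ} (hC : C.Good r) (hθ : C.CountsUpTo θ) {W B : Finset V}
    (hB : B.Nonempty) (hr : ∀ Z ⊆ B, InRange r θ (W ∪ Z))
    (h3 : 2 * (C.gsp C.out).card ≤ Fintype.card V) :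
    2 * ∑ π : Perm V, ∑ Z ∈ B.powerset, (-1 : ℤ) ^ Z.card *
      ((C.val (hide d ((W ∪ Z).map π.toEmbedding)) C.out).toNat : ℤ) ≤
        (Fintype.card V).factorial := by
  classical
  have hcp := count_perm (C.gsp C.out) h3 B
  rw [Finset.card_filter] at hcp
  have hcp' : (2 : ℤ) ^ B.card * ∑ π : Perm V, (if ∀ x ∈ B, π x ∈ C.gsp C.out then 1 else 0) ≤
      (Fintype.card V).factorial := by exact_mod_cast hcp
  refine le_trans ?_ hcp'
  rw [Finset.mul_sum, Finset.mul_sum]
  apply Finset.sum_le_sum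
  intro π _
  by_cases hπ : ∀ x ∈ B, π x ∈ C.gsp C.out
  · rw [if_pos hπ, mul_one]
    exact alt_sum_le hB (fun Z => C.val (hide d ((W ∪ Z).map π.toEmbedding)) C.out)
  · rw [if_neg hπ, mul_zero]
    push Not at hπ
    obtain ⟨x, hx, hxS⟩ := hπ
    rw [alt_sum_zero hx (fun Z => C.val (hide d ((W ∪ Z).map π.toEmbedding)) C.out)]
    · simp
    · intro Z hZ _
      have hZ' : insert x Z ⊆ B := Finset.insert_subset hx hZ
      apply Circuit.blind hC hθ C.out _ _ ((hr _ hZ').map π) ((hr _ hZ).map π)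
      intro y hy
      rw [Finset.mem_map_equiv, Finset.mem_map_equiv, Finset.mem_union, Finset.mem_union,
        Finset.mem_insert]
      constructor
      · rintro (h | h | h)
        · exact Or.inl h
        · exfalso
          apply hxS
          rw [← h, Equiv.apply_symm_apply]
          exact hy
        · exact Or.inr h
      · rintro (h | h)
        · exact Or.inl h
        · exact Or.inr (Or.inr h)

theorem lower_bound2 {n M d θ s b r t : ℕ} {γ : ℝ} (hd : Even d) (hM : 2 ≤ M) (hn : n = M * d)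
    (hn4 : 4 ≤ n) (hγ : (1 / 2 : ℝ) ^ t < γ) (ht : 1 ≤ t)
    (hC : HasCircuit n d M γ (WireBound n d θ s)) (hb : s < b.factorial)
    (h3 : s * 3 ^ (2 * b) < n.choose (n / 2)) (h2 : s * 2 ^ (2 * b) < n.choose r)
    (hr : 2 * (r + θ) + t + 1 ≤ n) : False := by
  classical
  have h2d : 2 * d ≤ n := by
    rw [hn]
    exact Nat.mul_le_mul_right _ hM
  -- the hidden sets
  obtain ⟨W, -, hW⟩ := Finset.exists_subset_card_eq
    (show 2 * ((r + θ + 1) / 2) ≤ (Finset.univ : Finset (Fin n)).card by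
      rw [Finset.card_univ, Fintype.card_fin]; omega)
  obtain ⟨B, hBW, hB⟩ := Finset.exists_subset_card_eq
    (show t ≤ (Wᶜ : Finset (Fin n)).card by
      rw [Finset.card_compl, Fintype.card_fin]; omega)
  have hdis : ∀ Z ⊆ B, (W ∪ Z).card = W.card + Z.card := by
    intro Z hZ
    apply Finset.card_union_of_disjoint
    rw [Finset.disjoint_right]
    intro x hx
    exact Finset.mem_compl.1 (hBW (hZ hx))
  have hBne : B.Nonempty := by
    rw [← Finset.card_pos, hB]
    omega
  have hrange : ∀ Z ⊆ B, InRange r θ (W ∪ Z) := by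
    intro Z hZ
    have := Finset.card_le_card hZ
    unfold InRange
    rw [hdis Z hZ, hW, Fintype.card_fin]
    omega
  obtain ⟨ι, _, w, Γ, _, C, hw0, hw1, hP, hyes, hno⟩ := hC
  let acc : Perm (Fin n) → Finset (Fin n) → ℝ := fun π Z =>
    ∑ i, if (C i).output {A | hide d ((W ∪ Z).map π.toEmbedding) A = true} = true
      then w i else 0
  have hcov : ∀ (π : Perm (Fin n)) (Z : Finset (Fin n)), Z ⊆ B →
      (HasCover {A : DSet (Fin n) d | hide d ((W ∪ Z).map π.toEmbedding) A = true} M ↔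
        Even Z.card) := by
    intro π Z hZ
    rw [hasCover_hide hd (by rw [Fintype.card_fin, hn]), Finset.card_map, hdis Z hZ, hW]
    rw [Nat.even_add]
    exact ⟨fun h => h.1 (even_two_mul _), fun h => ⟨fun _ => h, fun _ => even_two_mul _⟩⟩
  have hacc : ∀ (π : Perm (Fin n)) (Z : Finset (Fin n)), Z ⊆ B →
      (-1 : ℝ) ^ Z.card * (1 / 2) + γ / 2 ≤ (-1 : ℝ) ^ Z.card * acc π Z := by
    intro π Z hZ
    by_cases he : Even Z.card
    · have h := hyes _ ((hcov π Z hZ).2 he)
      rw [he.neg_one_pow, one_mul, one_mul]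
      have h' : (1 + γ) / 2 ≤ acc π Z := h
      linarith
    · have h := hno _ (fun hc => he ((hcov π Z hZ).1 hc))
      rw [(Nat.not_even_iff_odd.1 he).neg_one_pow]
      have h' : acc π Z ≤ (1 - γ) / 2 := h
      linarith
  have hlow : (n.factorial : ℝ) * (2 ^ t * (γ / 2)) ≤
      ∑ π : Perm (Fin n), ∑ Z ∈ B.powerset, (-1 : ℝ) ^ Z.card * acc π Z := by
    have h5 : ∀ π : Perm (Fin n), (2 ^ t * (γ / 2)) ≤
        ∑ Z ∈ B.powerset, (-1 : ℝ) ^ Z.card * acc π Z := by
      intro π
      have h6 : ∑ Z ∈ B.powerset, ((-1 : ℝ) ^ Z.card * (1 / 2) + γ / 2) ≤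
          ∑ Z ∈ B.powerset, (-1 : ℝ) ^ Z.card * acc π Z :=
        Finset.sum_le_sum (fun Z hZ => hacc π Z (Finset.mem_powerset.1 hZ))
      have h7 : ∑ Z ∈ B.powerset, (-1 : ℝ) ^ Z.card = 0 := by
        have h8 : ∑ Z ∈ B.powerset, (-1 : ℤ) ^ Z.card = 0 := by
          rw [Finset.sum_powerset_neg_one_pow_card, if_neg hBne.ne_empty]
        exact_mod_cast h8
      rw [Finset.sum_add_distrib, ← Finset.sum_mul, h7, zero_mul, zero_add, Finset.sum_const,
        Finset.card_powerset, hB, nsmul_eq_mul] at h6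
      push_cast at h6
      exact h6
    have h9 : ∑ _π : Perm (Fin n), (2 ^ t * (γ / 2) : ℝ) ≤
        ∑ π : Perm (Fin n), ∑ Z ∈ B.powerset, (-1 : ℝ) ^ Z.card * acc π Z :=
      Finset.sum_le_sum (fun π _ => h5 π)
    rwa [Finset.sum_const, nsmul_eq_mul, Finset.card_univ, Fintype.card_perm,
      Fintype.card_fin] at h9
  have hval : ∀ i, (2 : ℝ) * ∑ π : Perm (Fin n), ∑ Z ∈ B.powerset, (-1 : ℝ) ^ Z.card *
      (((C i).val (hide d ((W ∪ Z).map π.toEmbedding)) (C i).out).toNat : ℝ) ≤
        n.factorial := by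
    intro i
    obtain ⟨g1, g2⟩ := (C i).good_of_wires (b := b) (r := r) (s := s)
      (by rw [Fintype.card_fin]; exact (hP i).2) hb (by rw [Fintype.card_fin]; exact h3)
      (by rw [Fintype.card_fin]; exact h2) (by rw [Fintype.card_fin]; omega)
      (by rw [Fintype.card_fin]; exact hn4) (by rw [Fintype.card_fin]; exact h2d)
    have := Circuit.sum_alt (C := C i) g1 (hP i).1 hBne hrange
      (by rw [Fintype.card_fin]; omega)
    rw [Fintype.card_fin] at this
    exact_mod_cast this
  have hsum : ∑ π : Perm (Fin n), ∑ Z ∈ B.powerset, (-1 : ℝ) ^ Z.card * acc π Z =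
      ∑ i, w i * ∑ π : Perm (Fin n), ∑ Z ∈ B.powerset, (-1 : ℝ) ^ Z.card *
        (((C i).val (hide d ((W ∪ Z).map π.toEmbedding)) (C i).out).toNat : ℝ) := by
    have h5 : ∀ (π : Perm (Fin n)) (Z : Finset (Fin n)), (-1 : ℝ) ^ Z.card * acc π Z =
        ∑ i, w i * ((-1 : ℝ) ^ Z.card *
          (((C i).val (hide d ((W ∪ Z).map π.toEmbedding)) (C i).out).toNat : ℝ)) := by
      intro π Z
      show (-1 : ℝ) ^ Z.card * ∑ i, (if (C i).output {A | hide d ((W ∪ Z).map π.toEmbedding) A =
        true} = true then w i else 0) = _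
      rw [Finset.mul_sum]
      apply Finset.sum_congr rfl
      intro i _
      rw [output_hide]
      cases (C i).val (hide d ((W ∪ Z).map π.toEmbedding)) (C i).out
      · simp
      · simp
        ring
    simp_rw [h5]
    rw [Finset.sum_congr rfl (fun π _ => Finset.sum_comm), Finset.sum_comm]
    apply Finset.sum_congr rfl
    intro i _
    rw [Finset.mul_sum]
    apply Finset.sum_congr rfl
    intro π _
    rw [Finset.mul_sum]
  have hup : 2 * ∑ π : Perm (Fin n), ∑ Z ∈ B.powerset, (-1 : ℝ) ^ Z.card * acc π Z ≤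
      n.factorial := by
    rw [hsum, Finset.mul_sum]
    calc ∑ i, 2 * (w i * ∑ π : Perm (Fin n), ∑ Z ∈ B.powerset, (-1 : ℝ) ^ Z.card *
        (((C i).val (hide d ((W ∪ Z).map π.toEmbedding)) (C i).out).toNat : ℝ)) ≤
        ∑ i, w i * (n.factorial : ℝ) := by
          apply Finset.sum_le_sum
          intro i _
          rw [mul_left_comm]
          exact mul_le_mul_of_nonneg_left (hval i) (hw0 i)
      _ = n.factorial := by rw [← Finset.sum_mul, hw1, one_mul]
  have hfac : (0 : ℝ) < n.factorial := by exact_mod_cast Nat.factorial_pos n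
  have h10 : (n.factorial : ℝ) * (2 ^ t * γ) ≤ n.factorial * 1 := by
    rw [mul_one]
    linarith
  have h11 : (2 : ℝ) ^ t * γ ≤ 1 := le_of_mul_le_mul_left h10 hfac
  have h12 : (2 : ℝ) ^ t * (1 / 2) ^ t < 2 ^ t * γ :=
    mul_lt_mul_of_pos_left hγ (by positivity)
  rw [← mul_pow] at h12
  norm_num at h12
  linarith

end Pool.Agent.SymSC
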