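import Mathlib
import Pool.Agent.Lib.MP_8fffab_lc_Sym.Rate
import Pool.Agent.Lib.MP_8fffab_lc_SymB.Defs

/-!
# The lower bound for the number of gates, for every positive advantage

The argument of `Pool.Agent.Lib.MP_8fffab_lc_Sym.Final` and `.Rate`, for circuits which decide
with any advantage `γ > 0`.
-/

namespace Pool.Agent.SymSC

set_option linter.unusedSectionVars false

open Equiv Equiv.Perm

variable {M q : ℕ}

/-- `size * (n! / number of symmetries) ≤ s`, where the size is the number of gates other than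
the output gate (and at least `1`). -/
def GateBound (n d s : ℕ) (Γ : Type) [Fintype Γ] (C : Circuit (Fin n) d Γ) : Prop :=
  max 1 (Fintype.card Γ - 1) * n.factorial ≤ s * C.numSym

/-- the finite form of the bound -/
theorem gates_lower_bound (hM : 3 ≤ M) (hq : 1 ≤ q) {s b : ℕ} {γ : ℝ} (hγ : 0 < γ)
    (h : HasCircuit (4 * Fintype.card (Edg M q)) (2 * (M - 1) * q) M γ
      (GateBound (4 * Fintype.card (Edg M q)) (2 * (M - 1) * q) s))
    (hb : s < b.factorial) :
    (4 * Fintype.card (Edg M q)).choose (Fintype.card (Edg M q)) ≤ s * 2 ^ (2 * b) := by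
  classical
  by_contra hlt
  push Not at hlt
  have hcard := two_mul_card_Edg M q
  have hpos : 1 ≤ Fintype.card (Edg M q) := by
    rw [Nat.one_le_iff_ne_zero]
    intro h0
    rw [h0] at hcard
    have : 0 < M * ((M - 1) * q) := by
      apply Nat.mul_pos (by omega)
      exact Nat.mul_pos (by omega) hq
    omega
  obtain ⟨r, hr⟩ : ∃ r, Fintype.card (Edg M q) = r + 1 := ⟨_ - 1, (Nat.sub_add_cancel hpos).symm⟩
  have hr2 : 2 * r < q * M ^ 2 := by
    have h1 : 2 * (r + 1) = M * ((M - 1) * q) := by rw [← hr, hcard]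
    have h2 : M * ((M - 1) * q) ≤ M * (M * q) :=
      Nat.mul_le_mul_left _ (Nat.mul_le_mul_right _ (Nat.sub_le _ _))
    have h3 : M * (M * q) = q * M ^ 2 := by ring
    omega
  set n := 4 * Fintype.card (Edg M q) with hn
  have hc : Fintype.card (Fin n) = Fintype.card (Edg M q × Fin 4) := by
    rw [Fintype.card_fin, Fintype.card_prod, Fintype.card_fin, hn, mul_comm]
  let e : Fin n ≃ Edg M q × Fin 4 := Fintype.equivOfCardEq hc
  obtain ⟨ι, _, w, Γ, _, C, hw0, hw1, hs, hyes, hno⟩ := h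
  let 𝓕 := family hM hq e hr2
  let t0 : Fin M → ZMod 3 := fun _ => 0
  let t1 : Fin M → ZMod 3 := Pi.single ⟨0, by omega⟩ 1
  have ht1 : ∑ u, t1 u ≠ 0 := by
    rw [Finset.sum_pi_single']
    simp
  have hyes' := fun π : Perm (Fin n) => hyes {A | 𝓕.X t0 (A.move π) = true} (by
    rw [hasCover_move_iff (fun A => 𝓕.X t0 A = true) π]
    have h1 : {A : DSet (Fin n) (2 * (M - 1) * q) | 𝓕.X t0 A = true} =
        {A | Mem e (fun _ => 0) A.1} := by
      ext A
      show decide (Mem e t0 A.1) = true ↔ _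
      rw [decide_eq_true_iff]
      rfl
    rw [h1]
    exact exists_cover e)
  have hno' := fun π : Perm (Fin n) => hno {A | 𝓕.X t1 (A.move π) = true} (by
    rw [hasCover_move_iff (fun A => 𝓕.X t1 A = true) π]
    have h1 : {A : DSet (Fin n) (2 * (M - 1) * q) | 𝓕.X t1 A = true} =
        {A | Mem e t1 A.1} := by
      ext A
      show decide (Mem e t1 A.1) = true ↔ _
      rw [decide_eq_true_iff]
      rfl
    rw [h1]
    exact not_exists_cover hM hq e t1 ht1)
  have hout : ∀ (t : Fin M → ZMod 3) (π : Perm (Fin n)) (i : ι),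
      (C i).output {A | 𝓕.X t (A.move π) = true} =
        (C i).val (fun A => 𝓕.X t (A.move π)) (C i).out := by
    intro t π i
    unfold Circuit.output
    congr 1
    funext A
    cases hx : 𝓕.X t (A.move π)
    · exact @decide_eq_false _ (Classical.propDecidable _) (by
        show ¬ (𝓕.X t (A.move π) = true)
        rw [hx]
        exact Bool.false_ne_true)
    · exact @decide_eq_true _ (Classical.propDecidable _) hx
  have hsum : ∀ t : Fin M → ZMod 3,
      ∑ π : Perm (Fin n), ∑ i, (if (C i).output {A | 𝓕.X t (A.move π) = true} = true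
        then w i else 0) =
      ∑ i, w i * ((∑ π : Perm (Fin n),
        ((C i).val (fun A => 𝓕.X t (A.move π)) (C i).out).toNat : ℕ) : ℝ) := by
    intro t
    rw [Finset.sum_comm]
    apply Finset.sum_congr rfl
    intro i _
    rw [Nat.cast_sum, Finset.mul_sum]
    apply Finset.sum_congr rfl
    intro π _
    rw [hout]
    cases (C i).val (fun A => 𝓕.X t (A.move π)) (C i).out <;> simp
  have hblind : ∀ i, ∑ π : Perm (Fin n),
        ((C i).val (fun A => 𝓕.X t0 (A.move π)) (C i).out).toNat =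
      ∑ π : Perm (Fin n), ((C i).val (fun A => 𝓕.X t1 (A.move π)) (C i).out).toNat := by
    intro i
    apply 𝓕.blind (C i) (b := b) (s := s) _ hb
    · rw [Fintype.card_fin, ← hr, hn]
    · rw [Fintype.card_fin, ← hr]
      exact hlt
    · rw [Fintype.card_fin]
      exact hs i
  have h0 : ∑ π : Perm (Fin n), ∑ i, (if (C i).output {A | 𝓕.X t0 (A.move π) = true} = true
        then w i else 0) =
      ∑ π : Perm (Fin n), ∑ i, (if (C i).output {A | 𝓕.X t1 (A.move π) = true} = true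
        then w i else 0) := by
    rw [hsum, hsum]
    apply Finset.sum_congr rfl
    intro i _
    rw [hblind i]
  have h1 : ∑ _π : Perm (Fin n), ((1 + γ) / 2 : ℝ) ≤ ∑ _π : Perm (Fin n), ((1 - γ) / 2 : ℝ) := by
    calc ∑ _π : Perm (Fin n), ((1 + γ) / 2 : ℝ) ≤ _ := Finset.sum_le_sum (fun π _ => hyes' π)
      _ = _ := h0
      _ ≤ ∑ _π : Perm (Fin n), ((1 - γ) / 2 : ℝ) := Finset.sum_le_sum (fun π _ => hno' π)
  rw [Finset.sum_const, Finset.sum_const, nsmul_eq_mul, nsmul_eq_mul] at h1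
  have h2 : (0 : ℝ) < (Finset.univ : Finset (Perm (Fin n))).card := by
    exact_mod_cast Finset.card_pos.2 ⟨1, Finset.mem_univ _⟩
  have h3 := le_of_mul_le_mul_left h1 h2
  linarith

theorem gates_rate (b : ℝ) (hb0 : 0 ≤ b) (hb : b ^ 4 < 256 / 27) (c : ℕ) :
    ∃ M₀ : ℕ, ∀ M ≥ M₀, ∃ q₀ : ℕ, ∀ q ≥ q₀, ∀ (n d s : ℕ) (γ : ℝ),
      d = 2 * (M - 1) * q → n = M * d → 0 < γ →
      HasCircuit n d M γ (GateBound n d s) → b ^ n * (n.choose d : ℝ) ^ c < s := by
  obtain ⟨δ, hδ, hBδ⟩ := exists_delta (b ^ 4) hb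
  obtain ⟨η, hη, hηδ⟩ := exists_eta (4 * c) δ hδ
  obtain ⟨M₀, hM₀, hMd⟩ := exists_big_ratio η hη
  obtain ⟨K, hK, hK4⟩ := exists_K δ hδ
  obtain ⟨m₁, hm₁⟩ := exists_lin δ hδ
  obtain ⟨m₂, hm₂⟩ := exists_factorial K (2 ^ (4 * (c + 1))) hK
  refine ⟨M₀, fun M hMM => ⟨m₁ + m₂ + 1, fun q hq n d s γ hd hn hγ hs => ?_⟩⟩
  have hM : 3 ≤ M := le_trans hM₀ hMM
  by_contra hlt
  push Not at hlt
  set m := Fintype.card (Edg M q) with hm
  have hcard : 2 * m = M * ((M - 1) * q) := two_mul_card_Edg M q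
  have hn4 : n = 4 * m := by
    rw [hn, hd]
    have : M * (2 * (M - 1) * q) = 2 * (M * ((M - 1) * q)) := by ring
    rw [this, ← hcard]
    ring
  have hqm : q ≤ m := by
    have h1 : 3 * (2 * q) ≤ M * ((M - 1) * q) :=
      Nat.mul_le_mul hM (Nat.mul_le_mul_right _ (by omega))
    omega
  have hm1 : m₁ ≤ m := by omega
  have hm2 : m₂ ≤ m := by omega
  have hmp : 1 ≤ m := by omega
  have hbb : b ≤ 2 := by
    by_contra h
    push Not at h
    have : (2 : ℝ) ^ 4 < b ^ 4 := pow_lt_pow_left₀ h (by norm_num) (by norm_num)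
    norm_num at this
    linarith
  have hch2 : (n.choose d : ℝ) ≤ 2 ^ n := by exact_mod_cast Nat.choose_le_two_pow n d
  have hsb : s < (m / K).factorial := by
    refine lt_of_le_of_lt ?_ (hm₂ m hm2)
    have h1 : (s : ℝ) ≤ (2 : ℝ) ^ n * ((2 : ℝ) ^ n) ^ c := by
      refine hlt.trans ?_
      exact mul_le_mul (pow_le_pow_left₀ hb0 hbb n)
        (pow_le_pow_left₀ (by positivity) hch2 c) (by positivity) (by positivity)
    have h2 : (2 : ℝ) ^ n * ((2 : ℝ) ^ n) ^ c = (((2 ^ (4 * (c + 1))) ^ m : ℕ) : ℝ) := by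
      push_cast
      rw [← pow_mul, ← pow_add, ← pow_mul, hn4]
      congr 1
      ring
    rw [h2] at h1
    exact_mod_cast h1
  have hfin := gates_lower_bound (M := M) (q := q) hM (by omega) (s := s) (b := m / K) hγ
    (by rw [← hm, ← hn4, ← hd]; exact hs) hsb
  rw [← hm] at hfin
  have hfinR : ((4 * m).choose m : ℝ) ≤ s * 2 ^ (2 * (m / K)) := by exact_mod_cast hfin
  have h2b : (2 : ℝ) ^ (2 * (m / K)) ≤ (1 + δ) ^ m := by
    calc (2 : ℝ) ^ (2 * (m / K)) = 4 ^ (m / K) := by rw [pow_mul]; norm_num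
      _ ≤ ((1 + δ) ^ K) ^ (m / K) := pow_le_pow_left₀ (by norm_num) hK4 _
      _ = (1 + δ) ^ (K * (m / K)) := (pow_mul _ _ _).symm
      _ ≤ (1 + δ) ^ m := pow_le_pow_right₀ (by linarith) (Nat.mul_div_le m K)
  have hsle : (s : ℝ) ≤ (b ^ 4) ^ m * (1 + δ) ^ m := by
    refine hlt.trans ?_
    rw [← pow_mul, hn4]
    apply mul_le_mul_of_nonneg_left _ (by positivity)
    have h1 := hMd M hMM d
    rw [← hn, hn4] at h1
    calc (((4 * m).choose d : ℕ) : ℝ) ^ c ≤ ((1 + η) ^ (4 * m)) ^ c :=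
          pow_le_pow_left₀ (by positivity) h1 c
      _ = ((1 + η) ^ (4 * c)) ^ m := by rw [← pow_mul, ← pow_mul]; congr 1; ring
      _ ≤ (1 + δ) ^ m := pow_le_pow_left₀ (by positivity) hηδ m
  have hch : (256 / 27 : ℝ) ^ m < (b ^ 4) ^ m * (1 + δ) ^ m * (1 + δ) ^ m * (1 + δ) ^ m := by
    have h1 := choose_four_lower m hmp
    have h4 := hm₁ m hm1
    have h5 : (0 : ℝ) < ((4 * m).choose m : ℝ) := by
      exact_mod_cast Nat.choose_pos (show m ≤ 4 * m by omega)
    calc (256 / 27 : ℝ) ^ m ≤ ((4 * m).choose m : ℝ) * (m * (64 / 27)) := h1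
      _ < ((4 * m).choose m : ℝ) * (1 + δ) ^ m := mul_lt_mul_of_pos_left h4 h5
      _ ≤ (s * 2 ^ (2 * (m / K))) * (1 + δ) ^ m :=
          mul_le_mul_of_nonneg_right hfinR (by positivity)
      _ ≤ ((b ^ 4) ^ m * (1 + δ) ^ m * (1 + δ) ^ m) * (1 + δ) ^ m := by
          apply mul_le_mul_of_nonneg_right _ (by positivity)
          exact mul_le_mul hsle h2b (by positivity) (by positivity)
  have h6 : (b ^ 4) ^ m * (1 + δ) ^ m * (1 + δ) ^ m * (1 + δ) ^ m = (b ^ 4 * (1 + δ) ^ 3) ^ m := by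
    rw [← mul_pow, ← mul_pow, ← mul_pow]
    congr 1
    ring
  rw [h6] at hch
  have h7 : (b ^ 4 * (1 + δ) ^ 3) ^ m ≤ (256 / 27 : ℝ) ^ m :=
    pow_le_pow_left₀ (by positivity) hBδ.le m
  linarith

end Pool.Agent.SymSC
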