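import Mathlib
import Pool.Agent.Lib.MP_8fffab_lc_Sym.Upper
import Pool.Agent.Lib.MP_8fffab_lc_SymB.Gates

/-!
# Inclusion-exclusion is a symmetric circuit with `2 ^ n * C(n,d)` gates
-/

namespace Pool.Agent.SymSC

open Equiv Equiv.Perm

/-- the inclusion-exclusion circuit has `2^n C(n,d)` gates besides the output gate -/
theorem gates_upper (n d k : ℕ) (hn : 1 ≤ n) (hk : 1 ≤ k) :
    HasCircuit n d k 1 (fun Γ _ C => Fintype.card Γ = 2 ^ n * n.choose d + 1 ∧
      C.numSym = n.factorial) := by
  classical
  have : Nonempty (Fin n) := ⟨⟨0, hn⟩⟩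
  have hout : ∀ F : Set (DSet (Fin n) d), (ieCircuit (Fin n) d k (n.choose d)).output F = true ↔
      HasCover F k := by
    intro F
    rw [hasCover_iff]
    unfold Circuit.output
    have h1 := ie_val_out (V := Fin n) (d := d) k hk F
    rw [Fintype.card_fin] at h1
    show (ieCircuit (Fin n) d k (n.choose d)).val (fun A => decide (A ∈ F)) none = true ↔ _
    rw [h1, decide_eq_true_iff]
  refine ⟨Unit, inferInstance, fun _ => 1, fun _ => _, fun _ => inferInstance,
    fun _ => ieCircuit (Fin n) d k (n.choose d), fun _ => zero_le_one, by simp,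
    fun _ => ⟨?_, ?_⟩, ?_, ?_⟩
  · rw [Fintype.card_option, Fintype.card_prod, Fintype.card_finset, Fintype.card_fin,
      Fintype.card_fin]
  · rw [ie_numSym, Fintype.card_fin]
  · intro F hF
    have : (ieCircuit (Fin n) d k (n.choose d)).output F = true := (hout F).2 hF
    simp [this]
  · intro F hF
    have : ¬ ((ieCircuit (Fin n) d k (n.choose d)).output F = true) := fun h => hF ((hout F).1 h)
    simp [this]

end Pool.Agent.SymSC
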