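import Mathlib
import Pool.Agent.Lib.MP_8fffab_lc_Sym.Rate
import Pool.Agent.Lib.MP_8fffab_lc_SymB.Final

/-!
# The lower bound for the number of wires, asymptotic form
-/

namespace Pool.Agent.SymSC

open Filter Topology

lemma choose_step {n k : ℕ} (h : n ≤ 4 * k + 3) : n.choose (k + 1) ≤ 3 * n.choose k := by
  have h1 := Nat.choose_succ_right_eq n k
  have h2 : n.choose k * (n - k) ≤ n.choose k * (3 * (k + 1)) :=
    Nat.mul_le_mul_left _ (by omega)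
  have h3 : n.choose (k + 1) * (k + 1) ≤ 3 * n.choose k * (k + 1) := by
    rw [h1]
    refine h2.trans (le_of_eq ?_)
    ring
  exact Nat.le_of_mul_le_mul_right h3 (Nat.succ_pos k)

lemma choose_mid_le {m θ : ℕ} (h : 4 * θ + 1 ≤ 2 * m) : ∀ t ≤ θ + 1,
    (2 * m).choose m ≤ 3 ^ t * (2 * m).choose (m - t) := by
  intro t
  induction t with
  | zero => intro _; simp
  | succ t ih =>
    intro ht
    refine (ih (by omega)).trans ?_
    have e : m - t = (m - (t + 1)) + 1 := by omega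
    rw [e, pow_succ, mul_assoc]
    exact Nat.mul_le_mul_left _ (choose_step (by omega))

lemma exists_delta2 (b : ℝ) (hb : b < 2) : ∃ δ : ℝ, 0 < δ ∧ b * (1 + δ) ^ 4 < 2 := by
  have h : Tendsto (fun x : ℝ => b * (1 + x) ^ 4) (𝓝[>] 0) (𝓝 (b * (1 + 0) ^ 4)) := by
    apply Tendsto.mono_left _ nhdsWithin_le_nhds
    exact (by fun_prop : Continuous fun x : ℝ => b * (1 + x) ^ 4).tendsto 0
  have h2 : ∀ᶠ x in 𝓝[>] (0 : ℝ), b * (1 + x) ^ 4 < 2 :=
    h.eventually (gt_mem_nhds (by simpa using hb))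
  obtain ⟨x, hx, hx0⟩ := (h2.and self_mem_nhdsWithin).exists
  exact ⟨x, hx0, hx⟩

theorem rate2 (b : ℝ) (hb0 : 0 ≤ b) (hb : b < 2) (c : ℕ) :
    ∃ L M₀ : ℕ, 1 ≤ L ∧ ∀ M ≥ M₀, ∀ (n d θ t s : ℕ) (γ : ℝ), Even d → 0 < d → n = M * d →
      L * (θ + t) ≤ n → (1 / 2 : ℝ) ^ t < γ →
      HasCircuit n d M γ (WireBound n d θ s) → b ^ n * (n.choose d : ℝ) ^ c < s := by
  obtain ⟨δ, hδ, hBδ⟩ := exists_delta2 b hb
  obtain ⟨η, hη, hηδ⟩ := exists_eta c δ hδ
  obtain ⟨M₀, hM₀, hMd⟩ := exists_big_ratio η hη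
  obtain ⟨K, hK, hK4⟩ := exists_K δ hδ
  obtain ⟨m₁, hm₁⟩ := exists_lin δ hδ
  obtain ⟨m₂, hm₂⟩ := exists_factorial (2 * K) (2 ^ (c + 1)) (by omega)
  refine ⟨5 + 2 * K, M₀ + m₁ + m₂ + 2 * K + 4, by omega,
    fun M hMM n d θ₁ t s γ hd hd0 hn hL hγ hs => ?_⟩
  obtain ⟨θ, hθ⟩ : ∃ θ, θ = θ₁ + t := ⟨_, rfl⟩
  rw [← hθ] at hL
  by_contra hlt
  push Not at hlt
  have hMn : M ≤ n := by
    rw [hn]
    exact Nat.le_mul_of_pos_right _ hd0
  have hne : Even n := by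
    rw [hn]
    exact hd.mul_left M
  obtain ⟨m, hm⟩ := hne
  have hm' : n = 2 * m := by omega
  have hn2 : n / 2 = m := by omega
  have h1δ : (1 : ℝ) ≤ 1 + δ := by linarith
  -- bounds on `θ`
  have hKθ : 2 * (K * θ) ≤ n := by
    have : (5 + 2 * K) * θ = 5 * θ + 2 * (K * θ) := by ring
    omega
  have h5θ : 5 * θ ≤ n := by
    have : (5 + 2 * K) * θ = 5 * θ + 2 * (K * θ) := by ring
    omega
  have h4θ : 4 * θ + 1 ≤ 2 * m := by omega
  -- factorial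
  have hch2 : (n.choose d : ℝ) ≤ 2 ^ n := by exact_mod_cast Nat.choose_le_two_pow n d
  have hsb : s < (n / (2 * K)).factorial := by
    refine lt_of_le_of_lt ?_ (hm₂ n (by omega))
    have h1 : (s : ℝ) ≤ (2 : ℝ) ^ n * ((2 : ℝ) ^ n) ^ c := by
      refine hlt.trans ?_
      exact mul_le_mul (pow_le_pow_left₀ hb0 hb.le n)
        (pow_le_pow_left₀ (by positivity) hch2 c) (by positivity) (by positivity)
    have h2 : (2 : ℝ) ^ n * ((2 : ℝ) ^ n) ^ c = (((2 ^ (c + 1)) ^ n : ℕ) : ℝ) := by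
      push_cast
      rw [← pow_mul, ← pow_add, ← pow_mul]
      congr 1
      ring
    rw [h2] at h1
    exact_mod_cast h1
  -- the size
  have hsle : (s : ℝ) ≤ b ^ n * (1 + δ) ^ n := by
    refine hlt.trans ?_
    apply mul_le_mul_of_nonneg_left _ (by positivity)
    have h1 := hMd M (by omega) d
    rw [← hn] at h1
    calc ((n.choose d : ℕ) : ℝ) ^ c ≤ ((1 + η) ^ n) ^ c :=
          pow_le_pow_left₀ (by positivity) h1 c
      _ = ((1 + η) ^ c) ^ n := by rw [← pow_mul, ← pow_mul]; congr 1; ring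
      _ ≤ (1 + δ) ^ n := pow_le_pow_left₀ (by positivity) hηδ n
  have h9 : (3 : ℝ) ^ (2 * (n / (2 * K))) ≤ (1 + δ) ^ n := by
    calc (3 : ℝ) ^ (2 * (n / (2 * K))) ≤ 4 ^ (2 * (n / (2 * K))) :=
          pow_le_pow_left₀ (by norm_num) (by norm_num) _
      _ ≤ ((1 + δ) ^ K) ^ (2 * (n / (2 * K))) := pow_le_pow_left₀ (by norm_num) hK4 _
      _ = (1 + δ) ^ (2 * K * (n / (2 * K))) := by rw [← pow_mul]; congr 1; ring
      _ ≤ (1 + δ) ^ n := pow_le_pow_right₀ h1δ (Nat.mul_div_le n (2 * K))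
  have h4 : (2 : ℝ) ^ (2 * (n / (2 * K))) ≤ (1 + δ) ^ n :=
    (pow_le_pow_left₀ (by norm_num) (by norm_num) _).trans h9
  have hθ3 : (3 : ℝ) ^ (θ + 1) ≤ (1 + δ) ^ n := by
    calc (3 : ℝ) ^ (θ + 1) ≤ 4 ^ (θ + 1) := pow_le_pow_left₀ (by norm_num) (by norm_num) _
      _ ≤ ((1 + δ) ^ K) ^ (θ + 1) := pow_le_pow_left₀ (by norm_num) hK4 _
      _ = (1 + δ) ^ (K * θ + K) := by rw [← pow_mul]; congr 1
      _ ≤ (1 + δ) ^ n := pow_le_pow_right₀ h1δ (by omega)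
  -- the middle binomial coefficient
  have hmid : (2 : ℝ) ^ n ≤ (1 + δ) ^ n * (n.choose (n / 2) : ℝ) := by
    have h1 := Nat.four_pow_le_two_mul_self_mul_centralBinom m (by omega)
    have h2 : (2 : ℝ) ^ n ≤ n * (n.choose (n / 2) : ℝ) := by
      rw [hn2, hm', pow_mul]
      have : (4 : ℕ) ^ m ≤ 2 * m * (2 * m).choose m := h1
      have h3 : ((4 ^ m : ℕ) : ℝ) ≤ ((2 * m * (2 * m).choose m : ℕ) : ℝ) := by exact_mod_cast this
      push_cast at h3 ⊢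
      norm_num
      linarith
    have h3 := hm₁ n (by omega)
    have h5 : (n : ℝ) ≤ (1 + δ) ^ n := by
      have : (0 : ℝ) ≤ n := by positivity
      linarith
    exact h2.trans (mul_le_mul_of_nonneg_right h5 (by positivity))
  have hpos : (0 : ℝ) < (1 + δ) ^ n := by positivity
  have hmain : b ^ n * (1 + δ) ^ n * (1 + δ) ^ n * (1 + δ) ^ n * (1 + δ) ^ n < 2 ^ n := by
    have e : b ^ n * (1 + δ) ^ n * (1 + δ) ^ n * (1 + δ) ^ n * (1 + δ) ^ n =
        (b * (1 + δ) ^ 4) ^ n := by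
      rw [← mul_pow, ← mul_pow, ← mul_pow, ← mul_pow]
      congr 1
      ring
    rw [e]
    exact pow_lt_pow_left₀ hBδ (by positivity) (by omega)
  have hs0 : (0 : ℝ) ≤ s := by positivity
  have hbn : (0 : ℝ) ≤ b ^ n := by positivity
  have hone : (1 : ℝ) ≤ (1 + δ) ^ n := one_le_pow₀ h1δ
  have hγ' : (1 / 2 : ℝ) ^ (t + 1) < γ := by
    refine lt_of_le_of_lt ?_ hγ
    exact pow_le_pow_of_le_one (by norm_num) (by norm_num) (Nat.le_succ t)
  apply lower_bound2 (n := n) (M := M) (d := d) (θ := θ₁) (s := s) (b := n / (2 * K))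
    (r := m - (θ + 1)) (t := t + 1) (γ := γ) hd (by omega) hn (by omega) hγ' (by omega) hs hsb
  · -- three parts
    have h1 : (s : ℝ) * 3 ^ (2 * (n / (2 * K))) < n.choose (n / 2) := by
      have h2 : (s : ℝ) * 3 ^ (2 * (n / (2 * K))) ≤ b ^ n * (1 + δ) ^ n * (1 + δ) ^ n :=
        mul_le_mul hsle h9 (by positivity) (by positivity)
      have h3 : b ^ n * (1 + δ) ^ n * (1 + δ) ^ n * (1 + δ) ^ n < 2 ^ n := by
        refine lt_of_le_of_lt ?_ hmain
        exact le_mul_of_one_le_right (by positivity) hone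
      have h6 : b ^ n * (1 + δ) ^ n * (1 + δ) ^ n * (1 + δ) ^ n <
          (n.choose (n / 2) : ℝ) * (1 + δ) ^ n := by
        rw [mul_comm (n.choose (n / 2) : ℝ)]
        exact lt_of_lt_of_le h3 hmid
      exact lt_of_le_of_lt h2 (lt_of_mul_lt_mul_right h6 hpos.le)
    exact_mod_cast h1
  · -- two parts
    have h1 : (s : ℝ) * 2 ^ (2 * (n / (2 * K))) < n.choose (m - (θ + 1)) := by
      have h2 : (s : ℝ) * 2 ^ (2 * (n / (2 * K))) ≤ b ^ n * (1 + δ) ^ n * (1 + δ) ^ n :=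
        mul_le_mul hsle h4 (by positivity) (by positivity)
      have h3 : (n.choose (n / 2) : ℝ) ≤ 3 ^ (θ + 1) * (n.choose (m - (θ + 1)) : ℝ) := by
        rw [hn2, hm']
        exact_mod_cast choose_mid_le h4θ (θ + 1) le_rfl
      have h6 : (n.choose (n / 2) : ℝ) ≤ (1 + δ) ^ n * (n.choose (m - (θ + 1)) : ℝ) :=
        h3.trans (mul_le_mul_of_nonneg_right hθ3 (by positivity))
      have h7 : (b ^ n * (1 + δ) ^ n * (1 + δ) ^ n) * ((1 + δ) ^ n * (1 + δ) ^ n) <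
          (n.choose (m - (θ + 1)) : ℝ) * ((1 + δ) ^ n * (1 + δ) ^ n) := by
        calc (b ^ n * (1 + δ) ^ n * (1 + δ) ^ n) * ((1 + δ) ^ n * (1 + δ) ^ n) =
            b ^ n * (1 + δ) ^ n * (1 + δ) ^ n * (1 + δ) ^ n * (1 + δ) ^ n := by ring
          _ < 2 ^ n := hmain
          _ ≤ (1 + δ) ^ n * (n.choose (n / 2) : ℝ) := hmid
          _ ≤ (1 + δ) ^ n * ((1 + δ) ^ n * (n.choose (m - (θ + 1)) : ℝ)) :=
              mul_le_mul_of_nonneg_left h6 hpos.le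
          _ = _ := by ring
      exact lt_of_le_of_lt h2 (lt_of_mul_lt_mul_right h7 (by positivity))
    exact_mod_cast h1
  · omega

end Pool.Agent.SymSC
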